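import Pool.Agent.Lib.PolF.Frc

/-!
# The statements about the generic extension

`P` is a set of conditions, `le q p` means that `q` is stronger than `p`; names for subsets of a ground
model set `X` are functions `X → Set P`; `Mem`, `Neg`, `Imp`, `Iff'`, `Exi` are those of
`Pool.Agent.Lib.PolF.Frc`.
-/

set_option autoImplicit false
universe u

namespace Pool.Agent.UlB

open Cardinal Pool.Agent.PolF

/-- nonzero limit elements of a well-ordered type -/
def LimI {K : Type u} [LinearOrder K] (t : K) : Prop := (∃ a, a < t) ∧ ∀ a < t, ∃ b, a < b ∧ b < t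

section
variable {P : Type u} (le : P → P → Prop)

/-- `p ⊩ f`, restricted to `R × T`, is a partial function -/
def FPfn {I J : Type u} (R : Set I) (T : Set J) (f : I × J → Set P) (p : P) : Prop :=
  ∀ i ∈ R, ∀ y ∈ T, ∀ z ∈ T, y ≠ z → Neg le (fun q => Mem le f (i, y) q ∧ Mem le f (i, z) q) p

/-- `⊩` no partial function from `R` to `T` is onto -/
def FNonto {I J : Type u} (R : Set I) (T : Set J) : Prop :=
  ∀ (f : I × J → Set P) (p : P), FPfn le R T f p →
    ∃ q, le q p ∧ ∃ y ∈ T, ∀ i ∈ R, Neg le (Mem le f (i, y)) q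

/-- `p ⊩ C ∩ X` is closed and unbounded in the initial segment `X` -/
def FClub {K : Type u} [LinearOrder K] (C : K → Set P) (X : Set K) (p : P) : Prop :=
  (∀ b ∈ X, Exi le (fun y : {y : K // y ∈ X ∧ b < y} => Mem le C y.1) p) ∧
  ∀ y ∈ X, LimI y → Imp le
    (fun q => ∀ b < y, Exi le (fun z : {z : K // b < z ∧ z < y} => Mem le C z.1) q) (Mem le C y) p

/-- `p ⊩ S ∩ X` meets every closed unbounded subset of `X` -/
def FStat {K : Type u} [LinearOrder K] (S : K → Set P) (X : Set K) (p : P) : Prop :=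
  ∀ (C : K → Set P) (q : P), le q p → FClub le C X q →
    ∃ r, le r q ∧ ∃ y ∈ X, Mem le C y r ∧ Mem le S y r

/-- `p ⊩` every partial function from `R` to `{y | y < b}` is bounded -/
def FNcof {I K : Type u} [LinearOrder K] (R : Set I) (b : K) (p : P) : Prop :=
  ∀ (f : I × K → Set P) (q : P), le q p → FPfn le R (Set.Iio b) f q →
    ∃ r, le r q ∧ ∃ c < b, ∀ i ∈ R, ∀ y, c < y → y < b → Neg le (Mem le f (i, y)) r

/-- `⊩ 2 ^ #I ≤ (#I)⁺` for every infinite `I` -/
def FGch : Prop :=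
  ∀ (I : Type u) (p : P), Infinite I → ∃ q, le q p ∧ ∃ (J : Type u) (g : J × I → Set P),
    #J ≤ Order.succ #I ∧ ∀ (s : I → Set P) (r : P), le r q →
      ∃ r', le r' r ∧ ∃ j, ∀ y, Iff' le (Mem le s y) (Mem le g (j, y)) r'

/-- `(P, le)` forces: GCH; `K` is the successor of the singular cardinal `l0` of cofinality `w0 = ω`; `S` is a
stationary subset of `K` which reflects stationarily often; `A` is a ladder system on `S` with the
uniformization property -/
structure Fo {K : Type u} [LinearOrder K] [WellFoundedLT K] (w0 l0 : K) (S : K → Set P)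
    (A : K × K → Set P) : Prop where
  refl : ∀ p, le p p
  trans : ∀ p q r, le p q → le q r → le p r
  ne : Nonempty P
  gch : FGch le
  om : LimI w0 ∧ ∀ t < w0, ¬ LimI t
  lw : w0 < l0
  ll : LimI l0
  kl : ∀ a : K, ∃ b, a < b
  cofl : ∃ e : K → K, (∀ i < w0, e i < l0) ∧ ∀ b < l0, ∃ i < w0, b < e i
  img : ∀ t : K, #(Set.Iio t) ≤ #(Set.Iio l0)
  cardl : ∀ t < l0, FNonto le (Set.Iio t) (Set.Iio l0)
  cardK : ∀ t : K, FNonto le (Set.Iio t) (Set.univ : Set K)
  stat : ∀ p, FStat le S (Set.univ : Set K) p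
  rfl' : ∀ (C : K → Set P) (p : P), FClub le C (Set.univ : Set K) p →
    ∃ q, le q p ∧ ∃ b : K, LimI b ∧ Mem le C b q ∧ FNcof le (Set.Iio w0) b q ∧
      FStat le S (Set.Iio b) q
  lad : ∀ (p : P) (a : K), Mem le S a p → ∃ q, le q p ∧ ∃ e : K → K, (∀ i < w0, e i < a) ∧
    (∀ i < w0, ∀ j < w0, i < j → e i < e j) ∧ (∀ b < a, ∃ i < w0, b < e i) ∧
    ∀ y < a, ((∃ i < w0, e i = y) → Mem le A (a, y) q) ∧
      ((∀ i < w0, e i ≠ y) → Neg le (Mem le A (a, y)) q)
  unif : ∀ (c : K × K → Set P) (p : P), ∃ q, le q p ∧ ∃ f : K → Set P, ∀ r a, le r q →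
    Mem le S a r → ∃ s, le s r ∧ ∃ b < a, ∀ y, b < y → y < a →
      Imp le (Mem le A (a, y)) (Iff' le (Mem le f y) (Mem le c (a, y))) s

end

end Pool.Agent.UlB
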