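import Pool.Agent.Lib.UlB.Seg

/-!
# Gon: functions of the ground model

PROOF. `mem_gr`: `bMem_relN`. `bval_onto_gr`: the witness of `.ex` is `gr B g` (`le_iSup`, or `top_le_iff`); the functionality
part is `⊤`: unfold `fPfn`, `bAll_seg` three times, `bval_fPin`, `mem_gr`; if `y ≠ g i` or `z ≠ g i` one premise is `⊥`,
otherwise `y = z` and the conclusion is `bEq_refl`. The surjectivity part: `bAll_seg`, `bEx_seg`, the term of the `i` with
`g i = y` is `⊤`. `bval_cofin_gr`: the same; for `b ∈ T` take `i ∈ R` with `b < g i`; `bMem (chk b) (chk (g i)) = ⊤`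
(`chk_mem_of_lt`).
-/

set_option autoImplicit false
universe u

namespace Pool.Agent.UlB

open Pool.Agent.Lib.BVM Pool.Agent.Lib.BVM.BSet Pool.Agent.PolB Pool.Agent.PolF

variable {B : Type u} [CompleteBooleanAlgebra B] {I J : Type u} [LinearOrder I] [WellFoundedLT I]
  [LinearOrder J] [WellFoundedLT J]

open Classical in
/-- the name of a function of the ground model -/
noncomputable def gr (B : Type u) [CompleteBooleanAlgebra B] (g : I → J) : BSet B :=
  relN (fun z : I × J => if z.2 = g z.1 then ⊤ else ⊥)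

open Classical in
theorem mem_gr (g : I → J) (i : I) (j : J) :
    bMem (opair (chk B i) (chk B j)) (gr B g) = if j = g i then ⊤ else ⊥ :=
  bMem_relN _ i j

theorem bval_pfn_gr {k x f : ℕ} {v : ℕ → BSet B} {R : Set I} {T : Set J} (hk : IsSeg (v k) R)
    (hx : IsSeg (v x) T) (g : I → J) (hf : v f = gr B g) : bval (fPfn k x f) v = ⊤ := by
  classical
  unfold fPfn
  rw [bAll_seg hk, iInf_eq_top]
  rintro ⟨i, hi⟩
  have hx1 : IsSeg ((scons (chk B i) v) (x + 1)) T := hx
  rw [bAll_seg hx1, iInf_eq_top]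
  rintro ⟨y, hy⟩
  have hx2 : IsSeg ((scons (chk B y) (scons (chk B i) v)) (x + 2)) T := hx
  rw [bAll_seg hx2, iInf_eq_top]
  rintro ⟨z, hz⟩
  have e1 : bval (fPin (f + 3) 2 1) (scons (chk B z) (scons (chk B y) (scons (chk B i) v))) =
      if y = g i then ⊤ else ⊥ := by
    rw [bval_fPin]
    have e : (scons (chk B z) (scons (chk B y) (scons (chk B i) v))) (f + 3) = gr B g := hf
    rw [e]
    exact mem_gr g i y
  have e2 : bval (fPin (f + 3) 2 0) (scons (chk B z) (scons (chk B y) (scons (chk B i) v))) =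
      if z = g i then ⊤ else ⊥ := by
    rw [bval_fPin]
    have e : (scons (chk B z) (scons (chk B y) (scons (chk B i) v))) (f + 3) = gr B g := hf
    rw [e]
    exact mem_gr g i z
  have e3 : bval (.imp (fPin (f + 3) 2 1) (.imp (fPin (f + 3) 2 0) (.eq 1 0)))
      (scons (chk B z) (scons (chk B y) (scons (chk B i) v))) =
      bval (fPin (f + 3) 2 1) (scons (chk B z) (scons (chk B y) (scons (chk B i) v))) ⇨
      (bval (fPin (f + 3) 2 0) (scons (chk B z) (scons (chk B y) (scons (chk B i) v))) ⇨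
        bEq (chk B y) (chk B z)) := rfl
  rw [e3, e1, e2]
  by_cases h1 : y = g i
  · by_cases h2 : z = g i
    · rw [h1, h2, bEq_refl]; simp
    · rw [if_neg h2, bot_himp, himp_top]
  · rw [if_neg h1, bot_himp]

theorem bval_onto_gr {k x : ℕ} {v : ℕ → BSet B} {R : Set I} {T : Set J} (hk : IsSeg (v k) R)
    (hx : IsSeg (v x) T) (g : I → J) (hg : ∀ y ∈ T, ∃ i ∈ R, g i = y) :
    bval (fOnto k x) v = ⊤ := by
  classical
  have e0 : bval (fOnto k x) v = ⨆ z, (bval (fPfn (k + 1) (x + 1) 0) (scons z v) ⊓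
      bval (bAll (x + 1) (bEx (k + 2) (fPin 2 0 1))) (scons z v)) := rfl
  rw [e0, eq_top_iff]
  refine le_trans ?_ (le_iSup _ (gr B g))
  have hk1 : IsSeg ((scons (gr B g) v) (k + 1)) R := hk
  have hx1 : IsSeg ((scons (gr B g) v) (x + 1)) T := hx
  refine le_inf (bval_pfn_gr hk1 hx1 g rfl).ge ?_
  rw [bAll_seg hx1]
  refine le_iInf ?_
  rintro ⟨y, hy⟩
  obtain ⟨i, hi, hiy⟩ := hg y hy
  have hk2 : IsSeg ((scons (chk B y) (scons (gr B g) v)) (k + 2)) R := hk
  rw [bEx_seg hk2]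
  refine le_trans ?_ (le_iSup _ (⟨i, hi⟩ : R))
  rw [bval_fPin]
  have e := mem_gr (B := B) g i y
  rw [if_pos hiy.symm] at e
  exact e.ge

theorem bval_cofin_gr {k x : ℕ} {v : ℕ → BSet B} {R : Set I} {T : Set J} (hk : IsSeg (v k) R)
    (hx : IsSeg (v x) T) (g : I → J) (hg : ∀ i ∈ R, g i ∈ T) (hc : ∀ b ∈ T, ∃ i ∈ R, b < g i) :
    bval (fCofin k x) v = ⊤ := by
  classical
  have e0 : bval (fCofin k x) v = ⨆ z, (bval (fPfn (k + 1) (x + 1) 0) (scons z v) ⊓
      bval (bAll (x + 1) (bEx (k + 2) (bEx (x + 3) (.and (.mem 2 0) (fPin 3 1 0))))) (scons z v)) :=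
    rfl
  rw [e0, eq_top_iff]
  refine le_trans ?_ (le_iSup _ (gr B g))
  have hk1 : IsSeg ((scons (gr B g) v) (k + 1)) R := hk
  have hx1 : IsSeg ((scons (gr B g) v) (x + 1)) T := hx
  refine le_inf (bval_pfn_gr hk1 hx1 g rfl).ge ?_
  rw [bAll_seg hx1]
  refine le_iInf ?_
  rintro ⟨b, hb⟩
  obtain ⟨i, hi, hbi⟩ := hc b hb
  have hk2 : IsSeg ((scons (chk B b) (scons (gr B g) v)) (k + 2)) R := hk
  rw [bEx_seg hk2]
  refine le_trans ?_ (le_iSup _ (⟨i, hi⟩ : R))
  have hx3 : IsSeg ((scons (chk B i) (scons (chk B b) (scons (gr B g) v))) (x + 3)) T := hx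
  rw [bEx_seg hx3]
  refine le_trans ?_ (le_iSup _ (⟨g i, hg i hi⟩ : T))
  have e1 : bval (.and (.mem 2 0) (fPin 3 1 0)) (scons (chk B (g i)) (scons (chk B i)
      (scons (chk B b) (scons (gr B g) v)))) = bMem (chk B b) (chk B (g i)) ⊓
      bval (fPin 3 1 0) (scons (chk B (g i)) (scons (chk B i) (scons (chk B b)
        (scons (gr B g) v)))) := rfl
  rw [e1, chk_mem_of_lt hbi, top_inf_eq, bval_fPin]
  have e := mem_gr (B := B) g i (g i)
  rw [if_pos rfl] at e
  exact e.ge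

end Pool.Agent.UlB
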