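import Pool.Agent.Lib.UlB.Seg
import Pool.Agent.Lib.PolB.Lio

/-!
# Omg: limit ordinals and `ω`

PROOF. `bval_lim`: `bval_lim_chk` (PolB/Lio.lean). `bval_not_lim`: `fLim x = .and (fOrd x) (.and (.ex (.mem 0 (x + 1)))
(bAll x (bEx (x + 1) (.mem 1 0))))`. If `t` is not a limit, either no `a < t`: then `⨆ z, bMem z (chk t) = ⊥`
(`bMem_chk`); or there is `a < t` such that no `b` satisfies `a < b < t`: then in the last part (`bAll_seg`, `bEx_seg` with
`isSeg_chk`; the variable `x + 1` of the shifted assignment is `v x`) the term for `a` is `⨆ b < t, bMem (chk a) (chk b) = ⊥`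
(`chk_mem_of_not_lt`). `bval_omega`: the two lemmas with `bAll_seg`.
-/

set_option autoImplicit false
universe u

namespace Pool.Agent.UlB

open Pool.Agent.Lib.BVM Pool.Agent.Lib.BVM.BSet Pool.Agent.PolB Pool.Agent.PolF

variable {B : Type u} [CompleteBooleanAlgebra B] {K : Type u} [LinearOrder K] [WellFoundedLT K]

theorem bval_lim {x : ℕ} {v : ℕ → BSet B} {t : K} (h : v x = chk B t) (hl : LimI t) :
    bval (fLim x) v = ⊤ := bval_lim_chk h hl.1 hl.2

theorem bval_not_lim {x : ℕ} {v : ℕ → BSet B} {t : K} (h : v x = chk B t) (hl : ¬ LimI t) :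
    bval (fLim x) v = ⊥ := by
  have hsplit : bval (fLim x) v = (bval (bAll x (bAll 0 (.mem 0 (x + 2)))) v ⊓
      bval (bAll x (bAll (x + 1) (.or (.mem 1 0) (.or (.eq 1 0) (.mem 0 1))))) v) ⊓
      (bval (.ex (.mem 0 (x + 1))) v ⊓ bval (bAll x (bEx (x + 1) (.mem 1 0))) v) := rfl
  rw [hsplit]
  by_cases hn : ∃ a, a < t
  · have hm : ∃ a, a < t ∧ ∀ b, a < b → ¬ b < t := by
      by_contra hc
      push Not at hc
      exact hl ⟨hn, hc⟩
    obtain ⟨a, ha, hab⟩ := hm
    have e4 : bval (bAll x (bEx (x + 1) (.mem 1 0))) v = ⊥ := by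
      rw [← le_bot_iff, bAll_chk h]
      refine (iInf_le _ (⟨a, ha⟩ : {a : K // a < t})).trans ?_
      rw [bEx_chk (t := t) (by rw [scons_succ, h])]
      refine iSup_le ?_
      rintro ⟨b, hb⟩
      have h1 : bval (.mem 1 0) (scons (chk B b) (scons (chk B a) v)) =
          bMem (chk B a) (chk B b) := rfl
      rw [h1, chk_mem_of_not_lt fun h2 => hab b h2 hb]
    rw [e4, inf_bot_eq, inf_bot_eq]
  · have e3 : bval (.ex (.mem 0 (x + 1))) v = ⊥ := by
      have h1 : bval (.ex (.mem 0 (x + 1))) v = ⨆ z, bMem z (v x) := rfl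
      have h2 := (isSeg_chk (B := B) t).ex (fun _ => ⊤) (fun _ _ => le_top)
      simp only [inf_top_eq] at h2
      rw [h1, h, h2, iSup_eq_bot]
      rintro ⟨a, ha⟩
      exact (hn ⟨a, ha⟩).elim
    rw [e3, bot_inf_eq, inf_bot_eq]

theorem bval_omega {x : ℕ} {v : ℕ → BSet B} {t : K} (h : v x = chk B t) (hl : LimI t)
    (hm : ∀ s < t, ¬ LimI s) : bval (fOmega x) v = ⊤ := by
  have hsplit : bval (fOmega x) v = bval (fLim x) v ⊓ bval (bAll x (.neg (fLim 0))) v := rfl
  rw [hsplit, bval_lim h hl, top_inf_eq, bAll_chk h, iInf_eq_top]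
  rintro ⟨s, hs⟩
  have h1 : bval (.neg (fLim 0)) (scons (chk B s) v) = (bval (fLim 0) (scons (chk B s) v))ᶜ := rfl
  rw [h1, bval_not_lim (t := s) (scons_zero _ _) (hm s hs), compl_bot]

end Pool.Agent.UlB
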