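import Pool.Agent.Lib.UlB.Non
import Pool.Agent.Lib.UlB.Gon
import Pool.Agent.Lib.UlB.Omg

/-!
# Crd: cardinals

PROOF. `bval_card`: the conjunction of `hl` and `bAll_seg`: for `t ∈ T` the value of `fOnto 0 (x + 1)` in `scons (chk t) v`
is `⊥` by `bval_nonto` (`isSeg_chk t` for variable `0`, `hx` for `x + 1`), so `.neg` has value `⊤`. `bval_succ`: `bval_card` for
`L` (`bval_lim_all`, `isSeg_all`), `chk_mem_chkAll`, and for `t : K` `bval_onto_gr`: by `hi` there is a function `g` from `K` to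
`K` mapping `Iio l0` onto `Iio t` (an injection from `Iio t` to `Iio l0` exists by `Cardinal.le_def`; invert it with
`Function.invFun`; if `Iio t` is empty any `g` will do, `K` is nonempty since `t : K`).
-/

set_option autoImplicit false
universe u

namespace Pool.Agent.UlB

open Pool.Agent.Lib.BVM Pool.Agent.Lib.BVM.BSet Pool.Agent.PolB Pool.Agent.PolF

variable {P : Type u} {le : P → P → Prop} (hr : ∀ p, le p p)
  (ht : ∀ p q r, le p q → le q r → le p r)
  {K : Type u} [LinearOrder K] [WellFoundedLT K]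
include hr ht

theorem bval_card {x : ℕ} {v : ℕ → BSet (RO (Fsp le))} {T : Set K} (hx : IsSeg (v x) T)
    (hl : bval (fLim x) v = ⊤) (h : ∀ t ∈ T, FNonto le (Set.Iio t) T) : bval (fCard x) v = ⊤ := by
  have e2 : bval (bAll x (.neg (fOnto 0 (x + 1)))) v = ⊤ := by
    rw [bAll_seg hx, iInf_eq_top]
    rintro ⟨t, ht'⟩
    have h1 : IsSeg ((scons (chk (RO (Fsp le)) t) v) 0) (Set.Iio t) := by
      rw [scons_zero]
      exact isSeg_chk t
    have h2 : IsSeg ((scons (chk (RO (Fsp le)) t) v) (x + 1)) T := by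
      rw [scons_succ]
      exact hx
    have h3 := bval_nonto hr ht h1 h2 (h t ht')
    change (bval (fOnto 0 (x + 1)) (scons (chk (RO (Fsp le)) t) v))ᶜ = ⊤
    rw [h3, compl_bot]
  change bval (fLim x) v ⊓ bval (bAll x (.neg (fOnto 0 (x + 1)))) v = ⊤
  rw [hl, e2, inf_idem]

omit hr ht [WellFoundedLT K] in
private theorem crd_fun {t l0 : K} (hi : Cardinal.mk (Set.Iio t) ≤ Cardinal.mk (Set.Iio l0)) :
    ∃ g : K → K, ∀ y ∈ Set.Iio t, ∃ i ∈ Set.Iio l0, g i = y := by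
  classical
  rcases Set.eq_empty_or_nonempty (Set.Iio t) with he | ⟨y0, hy0⟩
  · exact ⟨id, fun y hy => by rw [he] at hy; exact absurd hy (Set.notMem_empty _)⟩
  · obtain ⟨f, hf⟩ : ∃ f : Set.Iio t → Set.Iio l0, Function.Injective f := by
      obtain ⟨e⟩ := hi
      exact ⟨e, e.injective⟩
    refine ⟨fun i => if h : ∃ y : Set.Iio t, (f y : K) = i then (h.choose : K) else y0,
      fun y hy => ⟨f ⟨y, hy⟩, (f ⟨y, hy⟩).2, ?_⟩⟩
    have h : ∃ y' : Set.Iio t, (f y' : K) = (f ⟨y, hy⟩ : K) := ⟨_, rfl⟩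
    have h2 : h.choose = ⟨y, hy⟩ := hf (Subtype.ext h.choose_spec)
    change (if h : ∃ y' : Set.Iio t, (f y' : K) = (f ⟨y, hy⟩ : K) then (h.choose : K) else y0) = y
    rw [dif_pos h, h2]

theorem bval_succ {l L : ℕ} {v : ℕ → BSet (RO (Fsp le))} {l0 : K}
    (hl : v l = chk (RO (Fsp le)) l0) (hL : v L = chkAll (RO (Fsp le)) K)
    (hm : ∀ a : K, ∃ b, a < b) (hi : ∀ t : K, Cardinal.mk (Set.Iio t) ≤ Cardinal.mk (Set.Iio l0))
    (h : ∀ t : K, FNonto le (Set.Iio t) (Set.univ : Set K)) : bval (fSucc l L) v = ⊤ := by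
  have hK : IsSeg (v L) (Set.univ : Set K) := by
    rw [hL]
    exact isSeg_all
  have hc : bval (fCard L) v = ⊤ :=
    bval_card hr ht hK (bval_lim_all hL ⟨l0⟩ hm) (fun t _ => h t)
  have hmem : bval (.mem l L) v = ⊤ := by
    change bMem (v l) (v L) = ⊤
    rw [hl, hL]
    exact chk_mem_chkAll l0
  have ho : bval (bAll L (fOnto (l + 1) 0)) v = ⊤ := by
    rw [bAll_seg hK, iInf_eq_top]
    rintro ⟨t, -⟩
    obtain ⟨g, hg⟩ := crd_fun (hi t)
    refine bval_onto_gr (R := Set.Iio l0) (T := Set.Iio t) ?_ ?_ g hg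
    · rw [scons_succ, hl]
      exact isSeg_chk l0
    · rw [scons_zero]
      exact isSeg_chk t
  change bval (fCard L) v ⊓ (bval (.mem l L) v ⊓ bval (bAll L (fOnto (l + 1) 0)) v) = ⊤
  rw [hc, hmem, ho, inf_idem, inf_idem]

end Pool.Agent.UlB
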