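import Pool.Agent.Lib.UlB.Pfn
import Pool.Agent.Lib.UlB.Gon

/-!
# Ldr: the ladder system

PROOF. `top_iff_Ap`; `fLadder w S A = bAll S (.ex ..)`. `bAll S` is `.all (.imp (.mem 0 (S + 1)) ..)`: since `v S = subN ..`, use
`bAll_subN` (PolB/Prs.lean), `Ap_iInf`, `Ap_himp`, `Ap_toB`: let `a : K`, `q ≤ p` with `Mem le Sn a q`. `Ap_ex`: let `q' ≤ q`; `h` at `q'`
(`Mem` passes to `q'`: `Mem_down` of PolF/Bas.lean, or unfold) gives `r ≤ q'` and `e : K → K`. The witness is
`gr (RO (Fsp le)) e`. The four parts at `r`, in the assignment `scons (gr ..) (scons (chk a) v)`: (1) `Ap_bAll` over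
`w` (`isSeg_chk w0`; the variable is `w + 2`), `Ap_bEx_of` over variable `2` (`isSeg_chk a`) with witness `e i`: `bval_fPin`, `mem_gr`.
(2) four `Ap_bAll`, `Ap_imp`: the premises hold only if `y = e i`, `z = e j` (`mem_gr`, `Ap_bot`); `i < j` gives `e i < e j`
(`chk_mem_of_lt`, `chk_mem_of_not_lt`), `i = j` gives `y = z` (`chk_eq_of_ne`, `bEq_refl`). (3) for `b < a` take `i` with
`b < e i`; `Mem le An (a, e i) r` by the last property; `Ap_bEx_of` with witness `e i`: the value of `fPin (A + 4) 3 0` is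
`toB le An (a, e i)` (`bval_fPin`, `hA`, `bMem_relN`), `Ap_toB`. (4) for `y < a` (`Ap_bAll`, `Ap_iff`): let `s ≤ r`. If `y = e i` for some
`i < w0` both sides hold at `s`; otherwise the left side fails at `s` (`Neg`) and so does the right side (`Ap_bEx`, `mem_gr`,
`Ap_bot`).
-/

set_option autoImplicit false
universe u

namespace Pool.Agent.UlB

open Pool.Agent.Lib.BVM Pool.Agent.Lib.BVM.BSet Pool.Agent.PolB Pool.Agent.PolF

variable {P : Type u} {le : P → P → Prop} (hr : ∀ p, le p p)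
  (ht : ∀ p q r, le p q → le q r → le p r)
  {K : Type u} [LinearOrder K] [WellFoundedLT K]
include hr ht

omit hr in
private theorem ldr_down {A : K → Set P} {x : K} {p q : P} (h : le q p) (hm : Mem le A x p) :
    Mem le A x q := fun s hs => hm s (ht _ _ _ hs h)

omit hr in
private theorem ldr_down2 {A : K × K → Set P} {x : K × K} {p q : P} (h : le q p)
    (hm : Mem le A x p) : Mem le A x q := fun s hs => hm s (ht _ _ _ hs h)

omit hr ht in
private theorem ldr_gr {e : K → K} {i y : K} {p : P}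
    (h : Ap p (bMem (opair (chk (RO (Fsp le)) i) (chk (RO (Fsp le)) y)) (gr (RO (Fsp le)) e))) :
    y = e i := by
  classical
  by_contra hne
  rw [mem_gr, if_neg hne] at h
  exact Ap_bot _ h

omit hr ht in
private theorem ldr_gr' (e : K → K) {i y : K} (p : P) (h : y = e i) :
    Ap p (bMem (opair (chk (RO (Fsp le)) i) (chk (RO (Fsp le)) y)) (gr (RO (Fsp le)) e)) := by
  classical
  rw [mem_gr, if_pos h]
  exact Ap_top _

private theorem ldr_all {X : Set K} {i : ℕ} {v : ℕ → BSet (RO (Fsp le))} {φ : Fm} {p : P}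
    (h : IsSeg (v i) X) (H : ∀ a ∈ X, Ap p (bval φ (scons (chk (RO (Fsp le)) a) v))) :
    Ap p (bval (bAll i φ) v) := (Ap_bAll hr ht h φ p).2 H

private theorem ldr_ex {X : Set K} {i : ℕ} {v : ℕ → BSet (RO (Fsp le))} {φ : Fm} {p : P}
    (h : IsSeg (v i) X) (a : K) (ha : a ∈ X)
    (H : Ap p (bval φ (scons (chk (RO (Fsp le)) a) v))) :
    Ap p (bval (bEx i φ) v) := Ap_bEx_of hr ht h φ p ha H

theorem bval_ladder {w S A : ℕ} {v : ℕ → BSet (RO (Fsp le))} {w0 : K}
    (hw : v w = chk (RO (Fsp le)) w0) (Sn : K → Set P) (An : K × K → Set P)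
    (hS : v S = subN (fun a : K => toB le Sn a)) (hA : v A = relN (fun z : K × K => toB le An z))
    (h : ∀ (p : P) (a : K), Mem le Sn a p → ∃ q, le q p ∧ ∃ e : K → K, (∀ i < w0, e i < a) ∧
      (∀ i < w0, ∀ j < w0, i < j → e i < e j) ∧ (∀ b < a, ∃ i < w0, b < e i) ∧
      ∀ y < a, ((∃ i < w0, e i = y) → Mem le An (a, y) q) ∧
        ((∀ i < w0, e i ≠ y) → Neg le (Mem le An (a, y)) q)) :
    bval (fLadder w S A) v = ⊤ := by
  have hw' : IsSeg (v w) (Set.Iio w0) := by rw [hw]; exact isSeg_chk w0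
  rw [top_iff_Ap]
  intro p
  unfold fLadder
  rw [bAll_subN hS, Ap_iInf hr ht]
  intro a
  rw [Ap_himp hr ht]
  intro q hq hSa
  rw [Ap_toB hr ht] at hSa
  rw [Ap_ex hr ht]
  intro q' hq'
  obtain ⟨r, hr', e, he1, he2, he3, he4⟩ := h q' a (ldr_down ht hq' hSa)
  refine ⟨r, hr', gr (RO (Fsp le)) e, ?_, ?_, ?_, ?_⟩
  · refine ldr_all hr ht (X := Set.Iio w0) hw' fun i hi => ?_
    refine ldr_ex hr ht (X := Set.Iio a) (isSeg_chk a) (e i) (he1 i hi) ?_
    rw [bval_fPin]
    exact ldr_gr' e r rfl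
  · refine ldr_all hr ht (X := Set.Iio w0) hw' fun i hi => ?_
    refine ldr_all hr ht (X := Set.Iio w0) hw' fun j hj => ?_
    refine ldr_all hr ht (X := Set.Iio a) (isSeg_chk a) fun y hy => ?_
    refine ldr_all hr ht (X := Set.Iio a) (isSeg_chk a) fun z hz => ?_
    rw [Ap_imp hr ht]
    intro s hs h1
    rw [Ap_imp hr ht]
    intro t ht' h2
    rw [bval_fPin] at h1 h2
    have h1' := ldr_gr h1
    have h2' := ldr_gr h2
    refine ⟨?_, ?_⟩
    · refine (Ap_imp hr ht t).2 fun s' hs' h3 => ?_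
      have h4 : i < j := by
        by_contra hn
        have h5 : Ap s' (bMem (chk (RO (Fsp le)) i) (chk (RO (Fsp le)) j)) := h3
        rw [chk_mem_of_not_lt hn] at h5
        exact Ap_bot _ h5
      show Ap s' (bMem (chk (RO (Fsp le)) y) (chk (RO (Fsp le)) z))
      rw [chk_mem_of_lt (by rw [h1', h2']; exact he2 i hi j hj h4)]
      exact Ap_top _
    · refine (Ap_imp hr ht t).2 fun s' hs' h3 => ?_
      have h4 : i = j := by
        by_contra hn
        have h5 : Ap s' (bEq (chk (RO (Fsp le)) i) (chk (RO (Fsp le)) j)) := h3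
        rw [chk_eq_of_ne hn] at h5
        exact Ap_bot _ h5
      show Ap s' (bEq (chk (RO (Fsp le)) y) (chk (RO (Fsp le)) z))
      rw [h1', h2', h4, bEq_refl]
      exact Ap_top _
  · refine ldr_all hr ht (X := Set.Iio a) (isSeg_chk a) fun b hb => ?_
    obtain ⟨i, hi, hbi⟩ := he3 b hb
    refine ldr_ex hr ht (X := Set.Iio a) (isSeg_chk a) (e i) (he1 i hi) ⟨?_, ?_⟩
    · show Ap r (bval (fPin (A + 4) 3 0) _)
      rw [bval_fPin]
      show Ap r (bMem (opair (chk (RO (Fsp le)) a) (chk (RO (Fsp le)) (e i))) (v A))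
      rw [hA, bMem_relN, Ap_toB hr ht]
      exact (he4 (e i) (he1 i hi)).1 ⟨i, hi, rfl⟩
    · show Ap r (bMem (chk (RO (Fsp le)) b) (chk (RO (Fsp le)) (e i)))
      rw [chk_mem_of_lt hbi]
      exact Ap_top _
  · refine ldr_all hr ht (X := Set.Iio a) (isSeg_chk a) fun y hy => ?_
    rw [Ap_iff hr ht]
    intro s hs
    have hL : bval (fPin (A + 3) 2 0) (scons (chk (RO (Fsp le)) y)
        (scons (gr (RO (Fsp le)) e) (scons (chk (RO (Fsp le)) a) v))) = toB le An (a, y) := by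
      rw [bval_fPin]
      show bMem (opair (chk (RO (Fsp le)) a) (chk (RO (Fsp le)) y)) (v A) = _
      rw [hA, bMem_relN]
    rw [hL, Ap_toB hr ht]
    by_cases hE : ∃ i < w0, e i = y
    · refine ⟨fun _ => ?_, fun _ => ldr_down2 ht hs ((he4 y hy).1 hE)⟩
      obtain ⟨i, hi, hiy⟩ := hE
      refine ldr_ex hr ht (X := Set.Iio w0) hw' i hi ?_
      rw [bval_fPin]
      exact ldr_gr' e s hiy.symm
    · refine ⟨fun h1 => ?_, fun h1 => ?_⟩
      · exact absurd h1 ((he4 y hy).2 (fun i hi h2 => hE ⟨i, hi, h2⟩) s hs)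
      · exfalso
        obtain ⟨t, -, i, hi, h2⟩ := (Ap_bEx hr ht (i := w + 3) (v := scons (chk (RO (Fsp le)) y)
          (scons (gr (RO (Fsp le)) e) (scons (chk (RO (Fsp le)) a) v))) (X := Set.Iio w0) hw' _ s).1
          h1 s (hr s)
        rw [bval_fPin] at h2
        exact hE ⟨i, hi, (ldr_gr h2).symm⟩

end Pool.Agent.UlB
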