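import Pool.Agent.Lib.UlB.Pfn

/-!
# Non: forced nonexistence of surjections and of cofinal maps

PROOF. `bval_nonto`: if not `⊥`, some `p` has `Ap p (bval (fOnto k x) v)` (`le_iff_Ap`); `Ap_ex`: `r ≤ p` and `f` with
`Ap r` of the conjunction; `Ap_pfn` gives `FPfn le R T (nmR f) r`, so `FNonto` gives `q ≤ r` and `y ∈ T` with
`Neg (Mem (nmR f) (i, y)) q` for all `i ∈ R`. The second conjunct at `q`, for `y` (`Ap_bAll`, `Ap_bEx`, `Ap_pin`), gives
`s ≤ q`, `i ∈ R` with `Mem (nmR f) (i, y) s`, a contradiction. `Ap_ncof`: `Ap_neg`: let `q ≤ p` with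
`Ap q (bval (fCofin k x) v)`; in the same way, with `FNcof`: `r`, `c < b`; the second conjunct for `c` gives `s ≤ r`,
`i ∈ R`, `y < b` with `Ap s (bMem (chk c) (chk y))`, so `c < y` (`chk_mem_of_not_lt`, `Ap_bot`), and
`Mem (nmR f) (i, y) s`, a contradiction.
-/

set_option autoImplicit false
universe u

namespace Pool.Agent.UlB

open Pool.Agent.Lib.BVM Pool.Agent.Lib.BVM.BSet Pool.Agent.PolB Pool.Agent.PolF

variable {P : Type u} {le : P → P → Prop} (hr : ∀ p, le p p)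
  (ht : ∀ p q r, le p q → le q r → le p r)
  {I J : Type u} [LinearOrder I] [WellFoundedLT I] [LinearOrder J] [WellFoundedLT J]
include hr ht

theorem bval_nonto {k x : ℕ} {v : ℕ → BSet (RO (Fsp le))} {R : Set I} {T : Set J}
    (hk : IsSeg (v k) R) (hx : IsSeg (v x) T) (h : FNonto le R T) : bval (fOnto k x) v = ⊥ := by
  rw [eq_bot_iff, le_iff_Ap]
  intro p hp
  exfalso
  unfold fOnto at hp
  rw [Ap_ex hr ht] at hp
  obtain ⟨r, _, f, hf⟩ := hp p (hr p)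
  rw [Ap_and] at hf
  obtain ⟨h1, h2⟩ := hf
  have hk1 : IsSeg ((scons f v) (k + 1)) R := hk
  have hx1 : IsSeg ((scons f v) (x + 1)) T := hx
  rw [Ap_pfn hr ht hk1 hx1 r] at h1
  have h3 : FPfn le R T (nmR f) r := h1
  obtain ⟨q, hq, y, hy, hn⟩ := h (nmR f) r h3
  have h2' := Ap_down h2 hq
  rw [Ap_bAll hr ht hx1] at h2'
  have h4 := h2' y hy
  have hk2 : IsSeg ((scons (chk (RO (Fsp le)) y) (scons f v)) (k + 2)) R := hk
  rw [Ap_bEx hr ht hk2] at h4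
  obtain ⟨s, hs, i, hi, h5⟩ := h4 q (hr q)
  have e1 : Ap s (bval (fPin 2 0 1) (scons (chk (RO (Fsp le)) i)
      (scons (chk (RO (Fsp le)) y) (scons f v)))) ↔ Mem le (nmR f) (i, y) s :=
    Ap_pin hr ht rfl rfl s
  exact hn i hi s hs (e1.1 h5)

theorem Ap_ncof {k x : ℕ} {v : ℕ → BSet (RO (Fsp le))} {R : Set I} {b : J}
    (hk : IsSeg (v k) R) (hx : v x = chk (RO (Fsp le)) b) (p : P) (h : FNcof le R b p) :
    Ap p (bval (.neg (fCofin k x)) v) := by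
  rw [Ap_neg hr ht]
  intro q hq hc
  unfold fCofin at hc
  rw [Ap_ex hr ht] at hc
  obtain ⟨r, hrq, f, hf⟩ := hc q (hr q)
  rw [Ap_and] at hf
  obtain ⟨h1, h2⟩ := hf
  have hk1 : IsSeg ((scons f v) (k + 1)) R := hk
  have hx0 : IsSeg (v x) (Set.Iio b) := by rw [hx]; exact isSeg_chk b
  have hx1 : IsSeg ((scons f v) (x + 1)) (Set.Iio b) := hx0
  rw [Ap_pfn hr ht hk1 hx1 r] at h1
  have h3 : FPfn le R (Set.Iio b) (nmR f) r := h1
  obtain ⟨t, htr, c, hcb, hn⟩ := h (nmR f) r (ht _ _ _ hrq hq) h3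
  have h2' := Ap_down h2 htr
  rw [Ap_bAll hr ht hx1] at h2'
  have h4 := h2' c hcb
  have hk2 : IsSeg ((scons (chk (RO (Fsp le)) c) (scons f v)) (k + 2)) R := hk
  rw [Ap_bEx hr ht hk2] at h4
  obtain ⟨s, hs, i, hi, h5⟩ := h4 t (hr t)
  have hx3 : IsSeg ((scons (chk (RO (Fsp le)) i) (scons (chk (RO (Fsp le)) c) (scons f v)))
      (x + 3)) (Set.Iio b) := hx0
  rw [Ap_bEx hr ht hx3] at h5
  obtain ⟨u, hu, y, hy, h6⟩ := h5 s (hr s)
  rw [Ap_and] at h6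
  obtain ⟨h7, h8⟩ := h6
  have h9 : Ap u (bMem (chk (RO (Fsp le)) c) (chk (RO (Fsp le)) y)) := h7
  have hcy : c < y := by
    by_contra hn'
    rw [chk_mem_of_not_lt hn'] at h9
    exact Ap_bot u h9
  have e1 : Ap u (bval (fPin 3 1 0) (scons (chk (RO (Fsp le)) y) (scons (chk (RO (Fsp le)) i)
      (scons (chk (RO (Fsp le)) c) (scons f v))))) ↔ Mem le (nmR f) (i, y) u :=
    Ap_pin hr ht rfl rfl u
  exact hn i hi y hcy hy u (ht _ _ _ hu hs) (e1.1 h8)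

end Pool.Agent.UlB
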