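import Pool.Agent.Lib.UlB.Sta
import Pool.Agent.Lib.UlB.Non

/-!
# Rfl: stationary reflection

PROOF. `fRefl w S L = .all (.imp (fClub 0 (L + 1)) (bEx 0 (.and (.and (fLim 0) (.neg (fCofin (w + 2) 0))) (fStat (S + 2) 0))))`.
`top_iff_Ap`, `Ap_all`: a name `C`; `Ap_imp`: `q` with `Ap q (bval (fClub 0 (L + 1)) (scons C v))`; `Ap_ex`: let `q' ≤ q`; `club_imp`
at `q'` (`Ap_down`, `isSeg_all`) and `h` give `r ≤ q'` and `b`; the witness is `chk b`: membership `mem_nmS`; `bval_lim`;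
`Ap_ncof` (with `isSeg_chk w0` for the variable `w + 2`, and the variable `0` equal to `chk b`); `Ap_stat` with
`X = Set.Iio b`, `isSeg_chk b` and `hS` (the variable `S + 2` of `scons (chk b) (scons C v)` is `v S`).
-/

set_option autoImplicit false
universe u

namespace Pool.Agent.UlB

open Pool.Agent.Lib.BVM Pool.Agent.Lib.BVM.BSet Pool.Agent.PolB Pool.Agent.PolF

variable {P : Type u} {le : P → P → Prop} (hr : ∀ p, le p p)
  (ht : ∀ p q r, le p q → le q r → le p r)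
  {K : Type u} [LinearOrder K] [WellFoundedLT K]
include hr ht

theorem bval_refl {w S L : ℕ} {v : ℕ → BSet (RO (Fsp le))} {w0 : K}
    (hw : v w = chk (RO (Fsp le)) w0) (hL : v L = chkAll (RO (Fsp le)) K) (Sn : K → Set P)
    (hS : ∀ (a : K) (q : P), Ap q (bMem (chk (RO (Fsp le)) a) (v S)) ↔ Mem le Sn a q)
    (h : ∀ (C : K → Set P) (p : P), FClub le C (Set.univ : Set K) p →
      ∃ q, le q p ∧ ∃ b : K, LimI b ∧ Mem le C b q ∧ FNcof le (Set.Iio w0) b q ∧
        FStat le Sn (Set.Iio b) q) : bval (fRefl w S L) v = ⊤ := by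
  have e : fRefl w S L = .all (.imp (fClub 0 (L + 1)) (.ex (.and (.mem 0 1) (.and (.and (fLim 0)
    (.neg (fCofin (w + 2) 0))) (fStat (S + 2) 0))))) := rfl
  rw [e, top_iff_Ap]
  intro p
  refine (Ap_all hr ht p).2 fun C => ?_
  refine (Ap_imp hr ht p).2 fun q _ hq => ?_
  refine (Ap_ex hr ht q).2 fun q' hq' => ?_
  have hx : IsSeg (scons C v (L + 1)) (Set.univ : Set K) := by
    show IsSeg (v L) _
    rw [hL]
    exact isSeg_all
  have hc0 : Ap q' (bval (fClub 0 (L + 1)) (scons C v)) := Ap_down hq hq'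
  have hc : FClub le (nmS (scons C v 0)) (Set.univ : Set K) q' := club_imp hr ht hx q' hc0
  obtain ⟨r, hrq, b, hb, hm, hn, hst⟩ := h _ _ hc
  refine ⟨r, hrq, chk (RO (Fsp le)) b, ?_⟩
  have h1 := (mem_nmS hr ht (scons C v 0) b r).1 hm
  have h2 : Ap r (bval (fLim 0) (scons (chk (RO (Fsp le)) b) (scons C v))) := by
    rw [bval_lim (x := 0) (v := scons (chk (RO (Fsp le)) b) (scons C v)) rfl hb]
    exact Ap_top r
  have h3 : Ap r (bval (.neg (fCofin (w + 2) 0)) (scons (chk (RO (Fsp le)) b) (scons C v))) := by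
    refine Ap_ncof hr ht (R := Set.Iio w0) ?_ rfl r hn
    show IsSeg (v w) _
    rw [hw]
    exact isSeg_chk w0
  have eS : scons (chk (RO (Fsp le)) b) (scons C v) (S + 2) = v S := rfl
  have hS' : ∀ (a : K) (q : P), Ap q (bMem (chk (RO (Fsp le)) a)
      (scons (chk (RO (Fsp le)) b) (scons C v) (S + 2))) ↔ Mem le Sn a q := by
    intro a q
    rw [eS]
    exact hS a q
  have hb' : IsSeg (scons (chk (RO (Fsp le)) b) (scons C v) 0) (Set.Iio b) := isSeg_chk b
  have h4 := Ap_stat hr ht hb' Sn hS' r hst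
  exact (Ap_and r).2 ⟨h1, (Ap_and r).2 ⟨(Ap_and r).2 ⟨h2, h3⟩, h4⟩⟩

end Pool.Agent.UlB
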