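import Pool.Agent.Lib.UlB.Pfn

/-!
# Unf: the uniformization property

PROOF. `fUnif S A = .all (.ex (bAll (S + 2) (bEx 0 (bAll 1 (.imp (fPin (A + 5) 2 0) (.imp (.mem 1 0)
(.iff (.mem 0 3) (fPin 4 2 0))))))))`. `top_iff_Ap`; `Ap_all`: a name `c`; `Ap_ex`: let `p' ≤ p`; `h (nmR c) p'` gives `q ≤ p'` and
`f : K → Set P`; the witness is `subN (fun y => toB le f y)`. `bAll (S + 2)`: `bAll_subN` (the variable `S + 2` of
`scons (subN ..) (scons c v)` is `v S`), `Ap_iInf`, `Ap_himp`, `Ap_toB`: let `a : K`, `r ≤ q` with `Mem le Sn a r`. `Ap_bEx` over the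
variable `0 = chk a` (`isSeg_chk a`): let `r' ≤ r`; the property of `f` at `r'` gives `s ≤ r'` and `b < a`. `Ap_bAll` over variable `1`
(`chk a`): let `y < a`; `Ap_imp`: `s' ≤ s` with `Ap s'` of `fPin (A + 5) 2 0`, whose value is `toB le An (a, y)`
(`bval_fPin`, `hA`, `bMem_relN`), so `Mem le An (a, y) s'`; `Ap_imp`: `s'' ≤ s'` with `Ap s'' (bMem (chk b) (chk y))`, so
`b < y` (`chk_mem_of_not_lt`, `Ap_bot`); `Ap_iff`: `t ≤ s''`: `Imp` at `s''` gives `Iff'` at `s''`: `Mem f y t ↔ Mem (nmR c) (a, y) t`; the two values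
are `Ap t (bMem (chk y) (subN ..))` (`bMem_subN_ck`, `Ap_toB`) and `Ap t` of `fPin 4 2 0` (`bval_fPin`, `mem_nmR`).
-/

set_option autoImplicit false
universe u

namespace Pool.Agent.UlB

open Pool.Agent.Lib.BVM Pool.Agent.Lib.BVM.BSet Pool.Agent.PolB Pool.Agent.PolF

variable {P : Type u} {le : P → P → Prop} (hr : ∀ p, le p p)
  (ht : ∀ p q r, le p q → le q r → le p r)
  {K : Type u} [LinearOrder K] [WellFoundedLT K]
include hr ht

theorem bval_unif {S A : ℕ} {v : ℕ → BSet (RO (Fsp le))} (Sn : K → Set P) (An : K × K → Set P)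
    (hS : v S = subN (fun a : K => toB le Sn a)) (hA : v A = relN (fun z : K × K => toB le An z))
    (h : ∀ (c : K × K → Set P) (p : P), ∃ q, le q p ∧ ∃ f : K → Set P, ∀ r a, le r q →
      Mem le Sn a r → ∃ s, le s r ∧ ∃ b < a, ∀ y, b < y → y < a →
        Imp le (Mem le An (a, y)) (Iff' le (Mem le f y) (Mem le c (a, y))) s) :
    bval (fUnif S A) v = ⊤ := by
  classical
  rw [top_iff_Ap]
  intro p
  have h0 := (Ap_all hr ht (φ := .ex (bAll (S + 2) (bEx 0 (bAll 1 (.imp (fPin (A + 5) 2 0)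
    (.imp (.mem 1 0) (.iff (.mem 0 3) (fPin 4 2 0)))))))) (v := v) p).2
  refine h0 fun c => ?_
  rw [Ap_ex hr ht]
  intro p' hp'
  obtain ⟨q, hq, f, hf⟩ := h (nmR c) p'
  refine ⟨q, hq, subN (fun y : K => toB le f y), ?_⟩
  have hS2 : (scons (subN (fun y : K => toB le f y)) (scons c v)) (S + 2) =
      subN (fun a : K => toB le Sn a) := hS
  rw [bAll_subN hS2, Ap_iInf hr ht]
  intro a
  rw [Ap_himp hr ht]
  intro r hr1 hra
  rw [Ap_toB hr ht] at hra
  have hseg : IsSeg ((scons (chk (RO (Fsp le)) a) (scons (subN (fun y : K => toB le f y))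
      (scons c v))) 0) (Set.Iio a) := isSeg_chk a
  rw [Ap_bEx hr ht hseg]
  intro r' hr'
  obtain ⟨s, hs, b, hba, hb⟩ := hf r' a (ht _ _ _ hr' hr1) (fun t htt => hra t (ht _ _ _ htt hr'))
  refine ⟨s, hs, b, hba, ?_⟩
  have hseg2 : IsSeg ((scons (chk (RO (Fsp le)) b) (scons (chk (RO (Fsp le)) a)
      (scons (subN (fun y : K => toB le f y)) (scons c v)))) 1) (Set.Iio a) := isSeg_chk a
  rw [Ap_bAll hr ht hseg2]
  intro y hy
  rw [Ap_imp hr ht]
  intro s' hs' hA1
  have hA2 : Mem le An (a, y) s' := by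
    rw [bval_fPin] at hA1
    have e : bMem (opair (chk (RO (Fsp le)) a) (chk (RO (Fsp le)) y)) (v A) =
        toB le An (a, y) := by
      rw [hA]
      exact bMem_relN _ a y
    have hA3 : Ap s' (bMem (opair (chk (RO (Fsp le)) a) (chk (RO (Fsp le)) y)) (v A)) := hA1
    rw [e, Ap_toB hr ht] at hA3
    exact hA3
  rw [Ap_imp hr ht]
  intro s'' hs'' hby
  have hby2 : b < y := by
    by_contra hn
    have e : Ap s'' (bMem (chk (RO (Fsp le)) b) (chk (RO (Fsp le)) y)) := hby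
    rw [chk_mem_of_not_lt hn] at e
    exact Ap_bot _ e
  rw [Ap_iff hr ht]
  intro t ht'
  have hA4 : Mem le An (a, y) s'' := fun t htt => hA2 t (ht _ _ _ htt hs'')
  have h5 := hb y hby2 hy s'' (ht _ _ _ hs'' hs') hA4 t ht'
  have e1 : bval (.mem 0 3) (scons (chk (RO (Fsp le)) y) (scons (chk (RO (Fsp le)) b)
      (scons (chk (RO (Fsp le)) a) (scons (subN (fun y : K => toB le f y)) (scons c v))))) =
      toB le f y := bMem_subN_ck _ y
  have e2 : bval (fPin 4 2 0) (scons (chk (RO (Fsp le)) y) (scons (chk (RO (Fsp le)) b)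
      (scons (chk (RO (Fsp le)) a) (scons (subN (fun y : K => toB le f y)) (scons c v))))) =
      bMem (opair (chk (RO (Fsp le)) a) (chk (RO (Fsp le)) y)) c := bval_fPin _ _ _ _
  rw [e1, e2, Ap_toB hr ht, ← mem_nmR hr ht]
  exact h5

end Pool.Agent.UlB
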