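import Pool.Agent.Lib.UlB.Gch
import Pool.Agent.Lib.UlB.Crd
import Pool.Agent.Lib.UlB.Rfl
import Pool.Agent.Lib.UlB.Ldr
import Pool.Agent.Lib.UlB.Unf
import Pool.Agent.Lib.BVM.ZFC3

/-!
# Fin: the model
-/

set_option autoImplicit false
universe u

namespace Pool.Agent.UlB

open Pool.Agent.Lib.BVM Pool.Agent.Lib.BVM.BSet Pool.Agent.PolB Pool.Agent.PolF

variable {P : Type u} {le : P → P → Prop} {K : Type u} [LinearOrder K] [WellFoundedLT K]
  {w0 l0 : K} {S : K → Set P} {A : K × K → Set P}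

theorem model_of_forced (h : Fo le w0 l0 S A) :
    ∃ (M : Type (u + 1)) (E : M → M → Prop), IsZFC E ∧ IsGCH E ∧ ∃ w l L S A : M,
      IsOmega E w ∧ (IsCard E l ∧ E w l ∧ Cofin E w l) ∧ IsSucc E l L ∧ (∀ a, E a S → E a L) ∧
      IsStat E S L ∧ IsRefl E w S L ∧ IsLadder E w S A ∧ IsUnif E S A := by
  have hr := h.refl
  have ht := h.trans
  obtain ⟨p0⟩ := h.ne
  have hB : (⊤ : RO (Fsp le)) ≠ ⊥ := by
    intro e
    have h1 : Ap p0 (⊤ : RO (Fsp le)) := Ap_top p0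
    rw [e] at h1
    exact Ap_bot p0 h1
  obtain ⟨U, -⟩ := exists_ult hB
  let B := RO (Fsp le)
  let v : ℕ → BSet B := scons (chk B w0) (scons (chk B l0) (scons (chkAll B K)
    (scons (subN (fun a : K => toB le S a)) (fun _ => relN (fun z : K × K => toB le A z)))))
  have hv0 : v 0 = chk B w0 := rfl
  have hv1 : v 1 = chk B l0 := rfl
  have hv2 : v 2 = chkAll B K := rfl
  have hv3 : v 3 = subN (fun a : K => toB le S a) := rfl
  have hv4 : v 4 = relN (fun z : K × K => toB le A z) := rfl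
  have tr : ∀ φ : Fm, bval φ v = ⊤ → sat U.E φ (fun i => U.cls (v i)) := fun φ hφ => by
    rw [U.los, hφ]; exact U.top'
  have hS : ∀ (a : K) (q : P), Ap q (bMem (chk (RO (Fsp le)) a) (v 3)) ↔ Mem le S a q := by
    intro a q
    have e : bMem (chk B a) (v 3) = toB le S a := bMem_subN_ck _ a
    rw [e]
    exact Ap_toB hr ht S a q
  refine ⟨U.Mod, U.E, U.isZFC, tr fGCH (bval_gch hr ht h.gch v), U.cls (v 0), U.cls (v 1),
    U.cls (v 2), U.cls (v 3), U.cls (v 4), ?_, ⟨?_, ?_, ?_⟩, ?_, ?_, ?_, ?_, ?_, ?_⟩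
  · exact tr (fOmega 0) (bval_omega hv0 h.om.1 h.om.2)
  · exact tr (fCard 1) (bval_card hr ht (hv1 ▸ isSeg_chk l0 : IsSeg (v 1) (Set.Iio l0))
      (bval_lim hv1 h.ll) (fun t htl => h.cardl t htl))
  · have e : bval (.mem 0 1) v = ⊤ := chk_mem_of_lt h.lw
    exact tr (.mem 0 1) e
  · obtain ⟨e, he1, he2⟩ := h.cofl
    exact tr (fCofin 0 1) (bval_cofin_gr (isSeg_chk w0 : IsSeg (v 0) (Set.Iio w0))
      (isSeg_chk l0 : IsSeg (v 1) (Set.Iio l0)) e he1 he2)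
  · exact tr (fSucc 1 2) (bval_succ hr ht hv1 hv2 h.kl h.img h.cardK)
  · have e : bval (bAll 3 (.mem 0 3)) v = ⊤ := by
      rw [bAll_subN hv3, iInf_eq_top]
      intro a
      have e2 : bval (.mem 0 3) (scons (chk B a) v) = ⊤ := chk_mem_chkAll a
      rw [e2, himp_top]
    exact tr (bAll 3 (.mem 0 3)) e
  · have e : bval (fStat 3 2) v = ⊤ := by
      rw [top_iff_Ap]
      intro p
      exact Ap_stat hr ht (isSeg_all : IsSeg (v 2) (Set.univ : Set K)) S hS p (h.stat p)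
    exact tr (fStat 3 2) e
  · exact tr (fRefl 0 3 2) (bval_refl hr ht hv0 hv2 S hS h.rfl')
  · exact tr (fLadder 0 3 4) (bval_ladder hr ht hv0 S A hv3 hv4 h.lad)
  · exact tr (fUnif 3 4) (bval_unif hr ht S A hv3 hv4 h.unif)

end Pool.Agent.UlB
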