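import Pool.Agent.Lib.UlB.Omg

/-!
# Clb: closed unbounded sets

PROOF. `fClub C x = .and (fUnb C x) (bAll x ..)`, `fUnb C x = .and (bAll C (.mem 0 (x + 1))) (bAll x (bEx (C + 1) (.mem 1 0)))`.
(0) the first part of `fUnb` is `.all (.imp (.mem 0 (C + 1)) (.mem 0 (x + 1)))`; `Ap_all`, `Ap_imp`: if `q ≤ p` and
`Ap q (bMem z (v C))` then `Ap q (bMem z (v x))`; by `IsSeg.ex` for `φ w = bEq w z` (`ext1_eq`),
`bMem z (v x) = ⨆ w, bMem w (v x) ⊓ bEq w z = ⨆ a : X, bEq (chk a) z` (as in the proof of `IsSeg.not_mem`); by `Ap_iSup`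
there are densely below `q` conditions `r` and `a ∈ X` with `Ap r (bEq (chk a) z)`; then `bMem_congr_left`,
`bMem_congr_right` transport `z ∈ C`, `chk b ∈ z` to `chk a ∈ C`, `chk b ∈ chk a`, and `b < a` (`chk_mem_of_not_lt`, `Ap_bot`).
(1) unboundedness: `Ap_bAll` for `b ∈ X`, `Ap_ex` (`bEx (C + 1) ψ = .ex (.and (.mem 0 (C + 2)) ψ)`): `r ≤ q`, `z` with
`z ∈ C` and `chk b ∈ z`; use (0); `mem_nmS`. (2) closedness: `Ap_bAll` for `y ∈ X`, `Ap_imp` twice: the first premise is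
`bval_lim`, the second (`Ap_bAll` with `isSeg_chk y`, `Ap_ex_of` densely: `Ap_ex`) follows from the premise of `FClub` with witness
`chk z` (`chk_mem_of_lt`); the conclusion is `Ap q (bMem (chk y) (v C))`.
-/

set_option autoImplicit false
universe u

namespace Pool.Agent.UlB

open Pool.Agent.Lib.BVM Pool.Agent.Lib.BVM.BSet Pool.Agent.PolB Pool.Agent.PolF

variable {P : Type u} {le : P → P → Prop} (hr : ∀ p, le p p)
  (ht : ∀ p q r, le p q → le q r → le p r)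
  {K : Type u} [LinearOrder K] [WellFoundedLT K]
include hr ht

private theorem clb_key {y : BSet (RO (Fsp le))} {X : Set K} (hx : IsSeg y X) {q : P}
    {z : BSet (RO (Fsp le))} (h : Ap q (bMem z y)) :
    ∃ r, le r q ∧ ∃ a ∈ X, Ap r (bEq (chk (RO (Fsp le)) a) z) := by
  have h1 := hx.ex (fun w => bEq w z) (ext1_eq _)
  have h2 : Ap q (⨆ w, bMem w y ⊓ bEq w z) := by
    refine le_iff_Ap.1 (le_iSup (fun w => bMem w y ⊓ bEq w z) z) q ⟨h, ?_⟩
    rw [bEq_refl]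
    exact Ap_top q
  rw [h1, Ap_iSup hr ht] at h2
  obtain ⟨r, hrq, ⟨a, ha⟩, hra⟩ := h2 q (hr q)
  exact ⟨r, hrq, a, ha, hra⟩

theorem club_imp {C x : ℕ} {v : ℕ → BSet (RO (Fsp le))} {X : Set K}
    (hx : IsSeg (v x) X) (p : P) (h : Ap p (bval (fClub C x) v)) :
    FClub le (nmS (v C)) X p := by
  obtain ⟨⟨h0, h1⟩, h2⟩ := h
  have h0' : Ap p (bval (.all (.imp (.mem 0 (C + 1)) (.mem 0 (x + 1)))) v) := h0
  have h1' : Ap p (bval (bAll x (bEx (C + 1) (.mem 1 0))) v) := h1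
  have h2' : Ap p (bval (bAll x (.imp (fLim 0)
    (.imp (bAll 0 (bEx (C + 2) (.and (.mem 1 0) (.mem 0 2)))) (.mem 0 (C + 1))))) v) := h2
  refine ⟨fun b hb q hq => ?_, fun y hy hl q hq hprem => ?_⟩
  · have h3 := (Ap_bAll hr ht hx _ p).1 h1' b hb
    obtain ⟨r, hrq, z, hz⟩ := (Ap_ex hr ht p).1 h3 q hq
    have hz1 : Ap r (bMem z (v C)) := hz.1
    have hz2 : Ap r (bMem (chk (RO (Fsp le)) b) z) := hz.2
    have hz3 : Ap r (bMem z (v x)) :=
      (Ap_imp hr ht p).1 ((Ap_all hr ht p).1 h0' z) r (ht _ _ _ hrq hq) hz1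
    obtain ⟨s, hsr, a, ha, hsa⟩ := clb_key hr ht hx hz3
    have hba : b < a := by
      by_contra hn
      have h4 : Ap s (bMem (chk (RO (Fsp le)) b) (chk (RO (Fsp le)) a)) :=
        le_iff_Ap.1 (bMem_congr_right z (chk (RO (Fsp le)) a) (chk (RO (Fsp le)) b)) s
          ⟨by rw [bEq_symm]; exact hsa, Ap_down hz2 hsr⟩
      rw [chk_mem_of_not_lt hn] at h4
      exact Ap_bot _ h4
    refine ⟨s, ht _ _ _ hsr hrq, ⟨a, ha, hba⟩, (mem_nmS hr ht _ _ _).2 ?_⟩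
    exact le_iff_Ap.1 (bMem_congr_left z (chk (RO (Fsp le)) a) (v C)) s
      ⟨by rw [bEq_symm]; exact hsa, Ap_down hz1 hsr⟩
  · rw [mem_nmS hr ht]
    have h3 := (Ap_bAll hr ht hx _ p).1 h2' y hy
    have h4 := (Ap_imp hr ht p).1 h3 q hq (by
      rw [bval_lim (t := y) rfl hl]
      exact Ap_top q)
    refine (Ap_imp hr ht q).1 h4 q (hr q) ?_
    refine (Ap_bAll hr ht (i := 0) (v := scons (chk (RO (Fsp le)) y) v)
      (isSeg_chk y) _ q).2 fun b hb => ?_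
    refine (Ap_ex hr ht q).2 fun q1 hq1 => ?_
    obtain ⟨r, hr1, ⟨z, hz1, hz2⟩, hm⟩ := hprem b hb q1 hq1
    rw [mem_nmS hr ht] at hm
    refine ⟨r, hr1, chk (RO (Fsp le)) z, hm, ?_, ?_⟩
    · show Ap r (bMem (chk (RO (Fsp le)) b) (chk (RO (Fsp le)) z))
      rw [chk_mem_of_lt hz1]
      exact Ap_top r
    · show Ap r (bMem (chk (RO (Fsp le)) z) (chk (RO (Fsp le)) y))
      rw [chk_mem_of_lt hz2]
      exact Ap_top r

end Pool.Agent.UlB
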