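import Pool.Agent.Lib.UlB.Mdl
import Pool.Agent.Lib.PolB.Fml

/-!
# The formulas expressing the definitions of `Mdl`
-/

set_option autoImplicit false

namespace Pool.Agent.UlB

open Pool.Agent.Lib.BVM Pool.Agent.PolB

def fOmega (x : ℕ) : Fm := .and (fLim x) (bAll x (.neg (fLim 0)))

def fPfn (k x f : ℕ) : Fm :=
  bAll k (bAll (x + 1) (bAll (x + 2) (.imp (fPin (f + 3) 2 1) (.imp (fPin (f + 3) 2 0) (.eq 1 0)))))

def fOnto (k x : ℕ) : Fm :=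
  .ex (.and (fPfn (k + 1) (x + 1) 0) (bAll (x + 1) (bEx (k + 2) (fPin 2 0 1))))

def fCofin (k x : ℕ) : Fm :=
  .ex (.and (fPfn (k + 1) (x + 1) 0)
    (bAll (x + 1) (bEx (k + 2) (bEx (x + 3) (.and (.mem 2 0) (fPin 3 1 0))))))

def fCard (x : ℕ) : Fm := .and (fLim x) (bAll x (.neg (fOnto 0 (x + 1))))

def fSucc (l L : ℕ) : Fm := .and (fCard L) (.and (.mem l L) (bAll L (fOnto (l + 1) 0)))

def fGCH : Fm :=
  .all (.imp (fOrd 0) (.imp (.ex (.and (fLim 0) (.or (.eq 0 1) (.mem 0 1))))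
    (.ex (.and (.and (fOrd 0) (bAll 0 (fOnto 2 0)))
      (.ex (.all (bEx 2 (bAll 4 (.iff (.mem 0 2) (fPin 3 1 0))))))))))

def fClub (C x : ℕ) : Fm :=
  .and (fUnb C x) (bAll x (.imp (fLim 0) (.imp (bAll 0 (bEx (C + 2) (.and (.mem 1 0) (.mem 0 2))))
    (.mem 0 (C + 1)))))

def fStat (S x : ℕ) : Fm := .all (.imp (fClub 0 (x + 1)) (bEx 0 (.mem 0 (S + 2))))

def fRefl (w S L : ℕ) : Fm :=
  .all (.imp (fClub 0 (L + 1)) (bEx 0 (.and (.and (fLim 0) (.neg (fCofin (w + 2) 0)))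
    (fStat (S + 2) 0))))

def fLadder (w S A : ℕ) : Fm :=
  bAll S (.ex (.and (bAll (w + 2) (bEx 2 (fPin 2 1 0)))
    (.and (bAll (w + 2) (bAll (w + 3) (bAll 3 (bAll 4 (.imp (fPin 4 3 1) (.imp (fPin 4 2 0)
      (.and (.imp (.mem 3 2) (.mem 1 0)) (.imp (.eq 3 2) (.eq 1 0)))))))))
    (.and (bAll 1 (bEx 2 (.and (fPin (A + 4) 3 0) (.mem 1 0))))
      (bAll 1 (.iff (fPin (A + 3) 2 0) (bEx (w + 3) (fPin 2 0 1))))))))

def fUnif (S A : ℕ) : Fm :=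
  .all (.ex (bAll (S + 2) (bEx 0 (bAll 1 (.imp (fPin (A + 5) 2 0) (.imp (.mem 1 0)
    (.iff (.mem 0 3) (fPin 4 2 0))))))))

variable {M : Type*} (E : M → M → Prop) (v : ℕ → M)

theorem sat_fOmega (x : ℕ) : sat E (fOmega x) v ↔ IsOmega E (v x) := Iff.rfl

theorem sat_fPfn (k x f : ℕ) : sat E (fPfn k x f) v ↔ IsPfn E (v k) (v x) (v f) := Iff.rfl

theorem sat_fOnto (k x : ℕ) : sat E (fOnto k x) v ↔ Onto E (v k) (v x) := Iff.rfl

theorem sat_fCofin (k x : ℕ) : sat E (fCofin k x) v ↔ Cofin E (v k) (v x) := Iff.rfl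

theorem sat_fCard (x : ℕ) : sat E (fCard x) v ↔ IsCard E (v x) := Iff.rfl

theorem sat_fSucc (l L : ℕ) : sat E (fSucc l L) v ↔ IsSucc E (v l) (v L) := Iff.rfl

theorem sat_fGCH : sat E fGCH v ↔ IsGCH E := Iff.rfl

theorem sat_fClub (C x : ℕ) : sat E (fClub C x) v ↔ IsClub E (v C) (v x) := Iff.rfl

theorem sat_fStat (S x : ℕ) : sat E (fStat S x) v ↔ IsStat E (v S) (v x) := Iff.rfl

theorem sat_fRefl (w S L : ℕ) : sat E (fRefl w S L) v ↔ IsRefl E (v w) (v S) (v L) := Iff.rfl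

theorem sat_fLadder (w S A : ℕ) : sat E (fLadder w S A) v ↔ IsLadder E (v w) (v S) (v A) := Iff.rfl

theorem sat_fUnif (S A : ℕ) : sat E (fUnif S A) v ↔ IsUnif E (v S) (v A) := Iff.rfl

end Pool.Agent.UlB
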