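import Pool.Agent.Lib.UlB.Seg

/-!
# Pfn: partial functions between initial segments

PROOF. `Ap_pin`: `bval_fPin`, `mem_nmR`. `Ap_pfn`: unfold `fPfn`; three times `Ap_bAll` (the variables `k`, `x + 1`, `x + 2` of
the successive assignments are `v k`, `v x`, `v x`), two `Ap_imp`, `Ap_pin`; the value of `.eq 1 0` is `bEq (chk y) (chk z)`,
which is `⊤` if `y = z` and `⊥` otherwise (`chk_eq_of_ne`, `Ap_bot`). For `y ≠ z` the statement is: for `q ≤ p`
with `Mem (i, y) q` and `r ≤ q` with `Mem (i, z) r` there is a contradiction, i.e. `Neg` of the conjunction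
(forced statements pass to stronger conditions: `Ap_down`).
-/

set_option autoImplicit false
universe u

namespace Pool.Agent.UlB

open Pool.Agent.Lib.BVM Pool.Agent.Lib.BVM.BSet Pool.Agent.PolB Pool.Agent.PolF

variable {P : Type u} {le : P → P → Prop} (hr : ∀ p, le p p)
  (ht : ∀ p q r, le p q → le q r → le p r)
  {I J : Type u} [LinearOrder I] [WellFoundedLT I] [LinearOrder J] [WellFoundedLT J]
include hr ht

theorem Ap_pin {f a b : ℕ} {v : ℕ → BSet (RO (Fsp le))} {i : I} {j : J}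
    (ha : v a = chk (RO (Fsp le)) i) (hb : v b = chk (RO (Fsp le)) j) (p : P) :
    Ap p (bval (fPin f a b) v) ↔ Mem le (nmR (v f)) (i, j) p := by
  rw [bval_fPin, ha, hb]
  exact (mem_nmR hr ht (v f) i j p).symm

theorem Ap_pfn {k x f : ℕ} {v : ℕ → BSet (RO (Fsp le))} {R : Set I} {T : Set J}
    (hk : IsSeg (v k) R) (hx : IsSeg (v x) T) (p : P) :
    Ap p (bval (fPfn k x f) v) ↔ FPfn le R T (nmR (v f)) p := by
  unfold fPfn FPfn
  rw [Ap_bAll hr ht hk]
  refine forall_congr' fun i => forall_congr' fun _ => ?_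
  have h1 : IsSeg ((scons (chk (RO (Fsp le)) i) v) (x + 1)) T := hx
  rw [Ap_bAll hr ht h1]
  refine forall_congr' fun y => forall_congr' fun _ => ?_
  have h2 : IsSeg ((scons (chk (RO (Fsp le)) y) (scons (chk (RO (Fsp le)) i) v)) (x + 2)) T := hx
  rw [Ap_bAll hr ht h2]
  refine forall_congr' fun z => forall_congr' fun _ => ?_
  have e1 : ∀ q : P, Ap q (bval (fPin (f + 3) 2 1)
      (scons (chk (RO (Fsp le)) z) (scons (chk (RO (Fsp le)) y)
        (scons (chk (RO (Fsp le)) i) v)))) ↔ Mem le (nmR (v f)) (i, y) q :=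
    fun q => Ap_pin hr ht rfl rfl q
  have e2 : ∀ q : P, Ap q (bval (fPin (f + 3) 2 0)
      (scons (chk (RO (Fsp le)) z) (scons (chk (RO (Fsp le)) y)
        (scons (chk (RO (Fsp le)) i) v)))) ↔ Mem le (nmR (v f)) (i, z) q :=
    fun q => Ap_pin hr ht rfl rfl q
  have e3 : bval (.eq 1 0) (scons (chk (RO (Fsp le)) z) (scons (chk (RO (Fsp le)) y)
        (scons (chk (RO (Fsp le)) i) v))) = bEq (chk (RO (Fsp le)) y) (chk (RO (Fsp le)) z) := rfl
  rw [Ap_imp hr ht]
  constructor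
  · intro h hyz q hq hm
    have h3 := h q hq ((e1 q).2 hm.1)
    rw [Ap_imp hr ht] at h3
    have h4 := h3 q (hr q) ((e2 q).2 hm.2)
    rw [e3, chk_eq_of_ne hyz] at h4
    exact Ap_bot q h4
  · intro h q hq h3
    rw [Ap_imp hr ht]
    intro r hrq h4
    rw [e3]
    by_cases hyz : y = z
    · rw [hyz, bEq_refl]
      exact Ap_top r
    · exact absurd ⟨(e1 r).1 (Ap_down h3 hrq), (e2 r).1 h4⟩ (h hyz r (ht _ _ _ hrq hq))

end Pool.Agent.UlB
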