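import Pool.Agent.Lib.UlB.Ono
import Pool.Agent.Lib.UlB.Pfn
import Pool.Agent.Lib.UlB.Gon
import Pool.Agent.Lib.UlB.Omg

/-!
# Gch: the generalized continuum hypothesis

PROOF. `gch_std`: `#J ≤ succ #I = #M'` for `M' = (Order.succ (mk I)).ord.ToType`; if `J` is nonempty there is
`h : M' → J` onto, and `g' (i, y) = g (h i, y)`; `J` is nonempty by the covering property at `q`.
`gch_at`: the case `v 0 = chk t`, `Iio t` infinite, at `p`: goal `Ap p (bval (.ex (.and (.and (fOrd 0) (bAll 0 (fOnto 2 0)))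
(.ex (.all (bEx 2 (bAll 4 (.iff (.mem 0 2) (fPin 3 1 0)))))))) v)`. `Ap_ex` densely: for `p' ≤ p` take `q`, `g` of
`gch_std` for `I = Set.Iio t`; the witness is `chkAll M'`, a limit (`bval_lim_all`: `M'` is infinite, of the form
`c.ord.ToType` with `c` infinite, so it has no last element: `Cardinal.noMaxOrder`); `fOrd` is the first part of `fLim`. For `x : M'`
the set `Iio x` has at most `#I` elements (`Ordinal.card_typein..`, `Cardinal.mk_Iio_ord_toType`, `Order.lt_succ_iff`), so there is a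
function from `Iio t` onto `Iio x`, extended to `T → M'`: `bval_onto_gr` (`isSeg_chk t`, `isSeg_chk x`; if `Iio x` is empty any function).
The witness for the second `.ex` is `relN (fun z : M' × T => toB le g'' z)` with `g'' (j, y) = g' (j, ⟨y, _⟩)` for `y < t` and `∅`
otherwise. `Ap_all`: a name `s`; `Ap_bEx` (`isSeg_all` for variable `2`): for `r ≤ q` the covering property for
`fun y : Iio t => nmS s y` gives `r' ≤ r`, `j`; `Ap_bAll` (variable `4 = chk t`), `Ap_iff`, `mem_nmS`, `bMem_relN`, `Ap_toB`.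
`bval_gch`: `top_iff_Ap`, `Ap_all`: a name `a`; `Ap_imp` twice: `q` with `Ap q (fOrd 0)` and `Ap q` of the existence of a limit
`w` with `w = a` or `w ∈ a`. `Ap_loc`: for `q' ≤ q`, `ord_chk` gives `r ≤ q'` and `t : T` with `Ap r (bEq a (chk t))`. By `Ap_congr` all
statements about `a` may be replaced, at `r`, by statements about `chk t`. `Iio t` is infinite: `Ap_ex`, `Ap_or` give `r' ≤ r` and `w` with
`Ap r' (fLim w)` and (`Ap r' (bEq w (chk t))` or `Ap r' (bMem w (chk t))`); in both cases there are `r'' ≤ r'` and `s ≤ t` in `T` with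
`Ap r'' (bEq w (chk s))`, so `LimI s` by `bval_not_lim`, `Ap_bot`, so `Iio s ⊆ Iio t` is infinite (it is nonempty without last element:
`Set.infinite_of_forall_exists_gt`). Then `gch_at`.
-/

set_option autoImplicit false
universe u

namespace Pool.Agent.UlB

open Pool.Agent.Lib.BVM Pool.Agent.Lib.BVM.BSet Pool.Agent.PolB Pool.Agent.PolF

open Cardinal

variable {P : Type u} {le : P → P → Prop} (hr : ∀ p, le p p)
  (ht : ∀ p q r, le p q → le q r → le p r)
include hr ht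

theorem gch_std (h : FGch le) (I : Type u) (hI : Infinite I) (p : P) :
    ∃ q, le q p ∧ ∃ g : (Order.succ #I).ord.ToType × I → Set P, ∀ (s : I → Set P) (r : P),
      le r q → ∃ r', le r' r ∧ ∃ j, ∀ y, Iff' le (Mem le s y) (Mem le g (j, y)) r' := by
  obtain ⟨q, hq, J, g, hJ, hg⟩ := h I p hI
  obtain ⟨_, _, j0, _⟩ := hg (fun _ => ∅) q (hr q)
  have hcard : #J ≤ #(Order.succ #I).ord.ToType := by
    rw [Cardinal.mk_ord_toType]
    exact hJ
  obtain ⟨f⟩ : Nonempty (J ↪ (Order.succ #I).ord.ToType) := hcard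
  have hne : Nonempty J := ⟨j0⟩
  refine ⟨q, hq, fun z => g (Function.invFun f z.1, z.2), fun s r hrq => ?_⟩
  obtain ⟨r', hr1, j, hj⟩ := hg s r hrq
  refine ⟨r', hr1, f j, fun y => ?_⟩
  have e : Function.invFun f (f j) = j := Function.leftInverse_invFun f.injective j
  have h1 := hj y
  rw [← e] at h1
  exact h1

omit hr ht in
/-- a function from an initial segment onto a not larger one -/
private theorem onto_seg {I J : Type u} [LinearOrder I] [LinearOrder J] (t : I) (x : J)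
    (h : #(Set.Iio x) ≤ #(Set.Iio t)) :
    ∃ g : I → J, ∀ y ∈ Set.Iio x, ∃ i ∈ Set.Iio t, g i = y := by
  obtain ⟨f⟩ := h
  refine ⟨Function.extend (fun y : Set.Iio x => ((f y : Set.Iio t) : I)) (fun y => (y : J))
    (fun _ => x), fun y hy => ⟨(f ⟨y, hy⟩ : Set.Iio t), (f ⟨y, hy⟩).2, ?_⟩⟩
  have hinj : Function.Injective (fun y : Set.Iio x => ((f y : Set.Iio t) : I)) :=
    fun a b hab => f.injective (Subtype.ext hab)
  exact hinj.extend_apply _ _ ⟨y, hy⟩

theorem gch_at (h : FGch le) {T : Type u} [LinearOrder T] [WellFoundedLT T] (t : T)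
    (hI : Infinite (Set.Iio t)) {v : ℕ → BSet (RO (Fsp le))}
    (h0 : v 0 = chk (RO (Fsp le)) t) (p : P) :
    Ap p (bval (.ex (.and (.and (fOrd 0) (bAll 0 (fOnto 2 0)))
      (.ex (.all (bEx 2 (bAll 4 (.iff (.mem 0 2) (fPin 3 1 0)))))))) v) := by
  classical
  rw [Ap_ex hr ht]
  intro p' _
  obtain ⟨q, hq, g, hg⟩ := gch_std hr ht h (Set.Iio t) hI p'
  have hc : ℵ₀ ≤ Order.succ #(Set.Iio t) := (Cardinal.infinite_iff.1 hI).trans (Order.le_succ _)
  have hno : NoMaxOrder (Order.succ #(Set.Iio t)).ord.ToType := Cardinal.noMaxOrder hc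
  have hne : Nonempty (Order.succ #(Set.Iio t)).ord.ToType := by
    rw [← Cardinal.mk_ne_zero_iff, Cardinal.mk_ord_toType]
    exact (Cardinal.aleph0_pos.trans_le hc).ne'
  refine ⟨q, hq, chkAll (RO (Fsp le)) (Order.succ #(Set.Iio t)).ord.ToType, ?_⟩
  refine (Ap_and q).2 ⟨(Ap_and q).2 ⟨?_, ?_⟩, ?_⟩
  · have e := bval_lim_all (I := (Order.succ #(Set.Iio t)).ord.ToType)
      (v := scons (chkAll (RO (Fsp le)) (Order.succ #(Set.Iio t)).ord.ToType) v) (x := 0)
      rfl hne (fun a => exists_gt a)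
    have h1 : Ap q (bval (fLim 0)
        (scons (chkAll (RO (Fsp le)) (Order.succ #(Set.Iio t)).ord.ToType) v)) := by
      rw [e]
      exact Ap_top q
    exact ((Ap_and q).1 h1).1
  · rw [Ap_bAll hr ht (K := (Order.succ #(Set.Iio t)).ord.ToType) (X := Set.univ) isSeg_all]
    intro x _
    have hx : #(Set.Iio x) ≤ #(Set.Iio t) := Order.lt_succ_iff.1 (Cardinal.mk_Iio_ord_toType x)
    obtain ⟨k, hk⟩ := onto_seg t x hx
    rw [bval_onto_gr (R := Set.Iio t) (T := Set.Iio x) ?_ ?_ k hk]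
    · exact Ap_top q
    · simp only [scons_succ, h0]
      exact isSeg_chk t
    · exact isSeg_chk x
  · refine Ap_ex_of hr ht q (relN (fun z : (Order.succ #(Set.Iio t)).ord.ToType × T =>
      toB le (fun z : (Order.succ #(Set.Iio t)).ord.ToType × T =>
        if hz : z.2 < t then g (z.1, ⟨z.2, hz⟩) else ∅) z)) ?_
    rw [Ap_all hr ht]
    intro s
    rw [Ap_bEx hr ht (K := (Order.succ #(Set.Iio t)).ord.ToType) (X := Set.univ) isSeg_all]
    intro r hrq
    obtain ⟨r', hr1, j, hj⟩ := hg (fun y : Set.Iio t => nmS s (y : T)) r hrq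
    refine ⟨r', hr1, j, Set.mem_univ _, ?_⟩
    rw [Ap_bAll hr ht (K := T) (X := Set.Iio t) (by
      simp only [scons_succ, h0]
      exact isSeg_chk t)]
    intro y hy
    rw [Ap_iff hr ht]
    intro r2 hr2
    have h1 := hj ⟨y, hy⟩ r2 hr2
    have e1 : Mem le (fun y : Set.Iio t => nmS s (y : T)) ⟨y, hy⟩ r2 ↔
        Ap r2 (bMem (chk (RO (Fsp le)) y) s) := mem_nmS hr ht s y r2
    rw [e1] at h1
    rw [bval_fPin]
    simp only [scons_zero, scons_succ, bval]
    rw [bMem_relN, Ap_toB hr ht, h1]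
    have hy' : y < t := hy
    simp only [Mem, hy', dif_pos]

theorem bval_gch (h : FGch le) (v : ℕ → BSet (RO (Fsp le))) : bval fGCH v = ⊤ := by
  rw [top_iff_Ap]
  intro p
  rw [fGCH, Ap_all hr ht]
  intro a
  rw [Ap_imp hr ht]
  intro q _ ho
  rw [Ap_imp hr ht]
  intro q1 hq1 hex
  refine Ap_loc hr ht fun q2 hq2 => ?_
  obtain ⟨T, _, _, hT⟩ := ord_chk hr ht (x := 0) (v := scons a v)
  obtain ⟨r, hrq, t, hrt⟩ := hT q2 (Ap_down ho (ht _ _ _ hq2 hq1)) q2 (hr q2)
  have hrt' : Ap r (bEq a (chk (RO (Fsp le)) t)) := hrt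
  refine ⟨r, hrq, (Ap_congr hrt').2 (gch_at hr ht h t ?_ rfl r)⟩
  have h1 := (Ap_congr hrt').1 (Ap_down hex (ht _ _ _ hrq hq2))
  rw [Ap_ex hr ht] at h1
  obtain ⟨r1, hr1, z, hz⟩ := h1 r (hr r)
  rw [Ap_and, Ap_or hr ht] at hz
  obtain ⟨r2, hr2, hz2⟩ := hz.2 r1 (hr r1)
  have key : ∃ s ≤ t, ∃ r3, le r3 r2 ∧ Ap r3 (bEq z (chk (RO (Fsp le)) s)) := by
    rcases hz2 with h2 | h2
    · exact ⟨t, le_rfl, r2, hr r2, h2⟩
    · have h3 : Ap r2 (bMem z (chk (RO (Fsp le)) t)) := h2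
      rw [bMem_chk, Ap_iSup hr ht] at h3
      obtain ⟨r3, hr3, j, hj⟩ := h3 r2 (hr r2)
      exact ⟨j.1, j.2.le, r3, hr3, hj⟩
  obtain ⟨s, hst, r3, hr3, hs⟩ := key
  have hlim : LimI s := by
    by_contra hn
    have h4 := (Ap_congr hs).1 (Ap_down hz.1 (ht _ _ _ hr3 hr2))
    rw [bval_not_lim (t := s) rfl hn] at h4
    exact Ap_bot r3 h4
  have hne : Nonempty (Set.Iio s) := by
    obtain ⟨a, ha⟩ := hlim.1
    exact ⟨⟨a, ha⟩⟩
  have hno : NoMaxOrder (Set.Iio s) := by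
    refine ⟨fun a => ?_⟩
    obtain ⟨b, hb, hbs⟩ := hlim.2 a.1 a.2
    exact ⟨⟨b, hbs⟩, hb⟩
  have hi : Infinite (Set.Iio s) := NoMaxOrder.infinite
  exact Set.infinite_coe_iff.2 ((Set.infinite_coe_iff.1 hi).mono (Set.Iio_subset_Iio hst))

end Pool.Agent.UlB
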