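import Pool.Agent.Lib.PolB.Mdl

/-!
# The statement, for a structure `(M, E)`

`E x y` is read as `x ∈ y`. The definitions are the usual ones, written out in the language of set
theory.
-/

set_option autoImplicit false

namespace Pool.Agent.UlB

open Pool.Agent.PolB

variable {M : Type*} (E : M → M → Prop)

/-- `x` is the ordinal `ω`: the least nonzero limit ordinal -/
def IsOmega (x : M) : Prop := IsLim E x ∧ ∀ y, E y x → ¬ IsLim E y

/-- `f`, restricted to `k × x`, is a partial function from `k` to `x` -/
def IsPfn (k x f : M) : Prop :=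
  ∀ i, E i k → ∀ y, E y x → ∀ z, E z x → PairIn E f i y → PairIn E f i z → y = z

/-- some partial function from `k` to `x` is onto -/
def Onto (k x : M) : Prop := ∃ f, IsPfn E k x f ∧ ∀ y, E y x → ∃ i, E i k ∧ PairIn E f i y

/-- some partial function from `k` to the limit ordinal `x` has a range which is unbounded in `x` -/
def Cofin (k x : M) : Prop :=
  ∃ f, IsPfn E k x f ∧ ∀ b, E b x → ∃ i, E i k ∧ ∃ y, E y x ∧ (E b y ∧ PairIn E f i y)

/-- `x` is an infinite cardinal: a limit ordinal onto which no element of `x` can be mapped -/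
def IsCard (x : M) : Prop := IsLim E x ∧ ∀ t, E t x → ¬ Onto E t x

/-- `L` is the successor cardinal of `l` -/
def IsSucc (l L : M) : Prop := IsCard E L ∧ (E l L ∧ ∀ x, E x L → Onto E l x)

/-- the generalized continuum hypothesis: for every infinite ordinal `a` there are an ordinal `m`, all of
whose elements are images of `a` (that is, `m ≤ |a|⁺`), and a set of pairs `g` such that every subset of
`a` is one of the sets `{y ∈ a : (i, y) ∈ g}` with `i ∈ m` (that is, `2 ^ |a| ≤ |m|`) -/
def IsGCH : Prop :=
  ∀ a, IsOrd E a → (∃ w, IsLim E w ∧ (w = a ∨ E w a)) →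
    ∃ m, (IsOrd E m ∧ ∀ x, E x m → Onto E a x) ∧
      ∃ g, ∀ s, ∃ i, E i m ∧ ∀ y, E y a → (E y s ↔ PairIn E g i y)

/-- `C` is a closed unbounded subset of the limit ordinal `x` -/
def IsClub (C x : M) : Prop :=
  IsUnb E C x ∧ ∀ y, E y x → IsLim E y → (∀ b, E b y → ∃ z, E z C ∧ (E b z ∧ E z y)) → E y C

/-- `S ∩ x` is a stationary subset of the limit ordinal `x`: it meets every closed unbounded subset
of `x` -/
def IsStat (S x : M) : Prop := ∀ C, IsClub E C x → ∃ y, E y C ∧ E y S

/-- for `w = ω`: `S` reflects stationarily often in `L`: every closed unbounded subset of `L` has an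
element `b` of uncountable cofinality such that `S ∩ b` is stationary in `b` -/
def IsRefl (w S L : M) : Prop :=
  ∀ C, IsClub E C L → ∃ b, E b C ∧ ((IsLim E b ∧ ¬ Cofin E w b) ∧ IsStat E S b)

/-- for `w = ω`: `A` is a ladder system on `S`: for every `a ∈ S` the set `A_a = {y ∈ a : (a, y) ∈ A}` is
cofinal in `a`, and it is the range of a strictly increasing function `e` from `ω` to `a` -/
def IsLadder (w S A : M) : Prop :=
  ∀ a, E a S → ∃ e, (∀ i, E i w → ∃ y, E y a ∧ PairIn E e i y) ∧
    ((∀ i, E i w → ∀ j, E j w → ∀ y, E y a → ∀ z, E z a → PairIn E e i y → PairIn E e j z →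
      (E i j → E y z) ∧ (i = j → y = z)) ∧
    ((∀ b, E b a → ∃ y, E y a ∧ (PairIn E A a y ∧ E b y)) ∧
      ∀ y, E y a → (PairIn E A a y ↔ ∃ i, E i w ∧ PairIn E e i y)))

/-- the ladder system `A` on `S` has the uniformization property: for all functions `c_a` from `A_a` to
`{0, 1}`, `a ∈ S` (`c_a y = 1` if and only if `(a, y) ∈ c`), there is a function `f` to `{0, 1}` (the
characteristic function of the set `f`) such that for every `a ∈ S` the set of all `y ∈ A_a` with
`f y ≠ c_a y` is bounded in `a` -/
def IsUnif (S A : M) : Prop :=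
  ∀ c, ∃ f, ∀ a, E a S → ∃ b, E b a ∧ ∀ y, E y a → PairIn E A a y → E b y → (E y f ↔ PairIn E c a y)

end Pool.Agent.UlB
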