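import Pool.Agent.Lib.UlB.Fml
import Pool.Agent.Lib.UlB.Frc
import Pool.Agent.Lib.PolB.Prs
import Pool.Agent.Lib.PolB.Rob

/-!
# Seg: bounded quantifiers over initial segments of a well-ordered type; forcing of formulas
-/

set_option autoImplicit false
universe u

namespace Pool.Agent.UlB

open Pool.Agent.Lib.BVM Pool.Agent.Lib.BVM.BSet Pool.Agent.PolB Pool.Agent.PolF

section
variable {B : Type u} [CompleteBooleanAlgebra B] {K : Type u} [LinearOrder K] [WellFoundedLT K]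

/-- the elements of `x` are the check names of the elements of `X` -/
structure IsSeg (x : BSet B) (X : Set K) : Prop where
  all : ∀ φ : BSet B → B, Ext1 φ → (⨅ z, (bMem z x ⇨ φ z)) = ⨅ a : X, φ (chk B a.1)
  ex : ∀ φ : BSet B → B, Ext1 φ → (⨆ z, bMem z x ⊓ φ z) = ⨆ a : X, φ (chk B a.1)

theorem isSeg_all : IsSeg (chkAll B K) (Set.univ : Set K) := by
  constructor
  · intro φ h
    rw [iInf_chkAll h]
    exact le_antisymm (le_iInf fun a => iInf_le _ a.1) (le_iInf fun a => iInf_le _ (⟨a, trivial⟩ : (Set.univ : Set K)))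
  · intro φ h
    rw [iSup_chkAll h]
    exact le_antisymm (iSup_le fun a => le_iSup (fun a : (Set.univ : Set K) => φ (chk B a.1)) ⟨a, trivial⟩)
      (iSup_le fun a => le_iSup (fun a : K => φ (chk B a)) a.1)

theorem isSeg_chk (t : K) : IsSeg (chk B t) (Set.Iio t) :=
  ⟨fun _ h => iInf_chk h t, fun _ h => iSup_chk h t⟩

theorem bAll_seg {X : Set K} {i : ℕ} {v : ℕ → BSet B} (h : IsSeg (v i) X) (φ : Fm) :
    bval (bAll i φ) v = ⨅ a : X, bval φ (scons (chk B a.1) v) := h.all _ (ext1_bval φ v)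

theorem bEx_seg {X : Set K} {i : ℕ} {v : ℕ → BSet B} (h : IsSeg (v i) X) (φ : Fm) :
    bval (bEx i φ) v = ⨆ a : X, bval φ (scons (chk B a.1) v) := h.ex _ (ext1_bval φ v)

theorem IsSeg.mem {x : BSet B} {X : Set K} (h : IsSeg x X) {a : K} (ha : a ∈ X) :
    bMem (chk B a) x = ⊤ := by
  have h1 := h.all (fun z => bMem z x) (ext1_mem_left x)
  have h2 : (⨅ z, (bMem z x ⇨ bMem z x)) = ⊤ := by simp
  rw [h2] at h1
  exact top_le_iff.1 (h1.le.trans (iInf_le (fun a : X => bMem (chk B a.1) x) ⟨a, ha⟩))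

theorem IsSeg.not_mem {x : BSet B} {X : Set K} (h : IsSeg x X) {a : K} (ha : a ∉ X) :
    bMem (chk B a) x = ⊥ := by
  have h1 := h.ex (fun z => bEq z (chk B a)) (ext1_eq _)
  have h2 : (⨆ z, bMem z x ⊓ bEq z (chk B a)) = bMem (chk B a) x := by
    apply le_antisymm
    · refine iSup_le fun z => ?_
      rw [inf_comm]
      exact bMem_congr_left _ _ _
    · refine le_trans ?_ (le_iSup _ (chk B a))
      rw [bEq_refl, inf_top_eq]
  rw [h2] at h1
  rw [h1, iSup_eq_bot]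
  rintro ⟨b, hb⟩
  exact chk_eq_of_ne (fun e => ha (e ▸ hb))

end

section
variable {P : Type u} {le : P → P → Prop}

/-- the name, in the sense of `PolF`, of the set of `a : K` with `chk a ∈ C` -/
def nmS {K : Type u} [LinearOrder K] [WellFoundedLT K] (C : BSet (RO (Fsp le))) : K → Set P :=
  toS (fun a : K => bMem (chk (RO (Fsp le)) a) C)

/-- the name, in the sense of `PolF`, of the set of `z : I × J` with `(chk z.1, chk z.2) ∈ f` -/
def nmR {I J : Type u} [LinearOrder I] [WellFoundedLT I] [LinearOrder J] [WellFoundedLT J]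
    (f : BSet (RO (Fsp le))) : I × J → Set P :=
  toS (fun z : I × J => bMem (opair (chk (RO (Fsp le)) z.1) (chk (RO (Fsp le)) z.2)) f)

variable (hr : ∀ p, le p p) (ht : ∀ p q r, le p q → le q r → le p r)
include hr ht

theorem mem_nmS {K : Type u} [LinearOrder K] [WellFoundedLT K] (C : BSet (RO (Fsp le))) (a : K)
    (p : P) : Mem le (nmS C) a p ↔ Ap p (bMem (chk (RO (Fsp le)) a) C) := Mem_toS hr ht _ _ _

theorem mem_nmR {I J : Type u} [LinearOrder I] [WellFoundedLT I] [LinearOrder J] [WellFoundedLT J]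
    (f : BSet (RO (Fsp le))) (i : I) (j : J) (p : P) :
    Mem le (nmR f) (i, j) p ↔
      Ap p (bMem (opair (chk (RO (Fsp le)) i) (chk (RO (Fsp le)) j)) f) := Mem_toS hr ht _ _ _

variable {K : Type u} [LinearOrder K] [WellFoundedLT K]

theorem Ap_bAll {X : Set K} {i : ℕ} {v : ℕ → BSet (RO (Fsp le))} (h : IsSeg (v i) X) (φ : Fm)
    (p : P) : Ap p (bval (bAll i φ) v) ↔
      ∀ a ∈ X, Ap p (bval φ (scons (chk (RO (Fsp le)) a) v)) := by
  rw [bAll_seg h, Ap_iInf hr ht]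
  exact ⟨fun h a ha => h ⟨a, ha⟩, fun h a => h a.1 a.2⟩

theorem Ap_bEx {X : Set K} {i : ℕ} {v : ℕ → BSet (RO (Fsp le))} (h : IsSeg (v i) X) (φ : Fm)
    (p : P) : Ap p (bval (bEx i φ) v) ↔
      ∀ q, le q p → ∃ r, le r q ∧ ∃ a ∈ X, Ap r (bval φ (scons (chk (RO (Fsp le)) a) v)) := by
  rw [bEx_seg h, Ap_iSup hr ht]
  refine forall_congr' fun q => forall_congr' fun _ => exists_congr fun r => and_congr_right fun _ => ?_
  exact ⟨fun ⟨a, ha⟩ => ⟨a.1, a.2, ha⟩, fun ⟨a, ha, h⟩ => ⟨⟨a, ha⟩, h⟩⟩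

theorem Ap_bEx_of {X : Set K} {i : ℕ} {v : ℕ → BSet (RO (Fsp le))} (h : IsSeg (v i) X) (φ : Fm)
    (p : P) {a : K} (ha : a ∈ X) (hp : Ap p (bval φ (scons (chk (RO (Fsp le)) a) v))) :
    Ap p (bval (bEx i φ) v) :=
  (Ap_bEx hr ht h φ p).2 fun q hq => ⟨q, hr q, a, ha, Ap_down hp hq⟩

omit hr ht in
theorem Ap_and {φ ψ : Fm} {v : ℕ → BSet (RO (Fsp le))} (p : P) :
    Ap p (bval (.and φ ψ) v) ↔ Ap p (bval φ v) ∧ Ap p (bval ψ v) := Iff.rfl

theorem Ap_imp {φ ψ : Fm} {v : ℕ → BSet (RO (Fsp le))} (p : P) :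
    Ap p (bval (.imp φ ψ) v) ↔ ∀ q, le q p → Ap q (bval φ v) → Ap q (bval ψ v) :=
  Ap_himp hr ht _ _ _

theorem Ap_iff {φ ψ : Fm} {v : ℕ → BSet (RO (Fsp le))} (p : P) :
    Ap p (bval (.iff φ ψ) v) ↔ ∀ q, le q p → (Ap q (bval φ v) ↔ Ap q (bval ψ v)) := by
  have e : bval (.iff φ ψ) v = (bval φ v ⇨ bval ψ v) ⊓ (bval ψ v ⇨ bval φ v) := rfl
  rw [e, Ap_inf, Ap_himp hr ht, Ap_himp hr ht]
  exact ⟨fun h q hq => ⟨h.1 q hq, h.2 q hq⟩, fun h => ⟨fun q hq => (h q hq).1, fun q hq => (h q hq).2⟩⟩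

theorem Ap_neg {φ : Fm} {v : ℕ → BSet (RO (Fsp le))} (p : P) :
    Ap p (bval (.neg φ) v) ↔ ∀ q, le q p → ¬ Ap q (bval φ v) := Ap_compl hr ht _ _

theorem Ap_or {φ ψ : Fm} {v : ℕ → BSet (RO (Fsp le))} (p : P) :
    Ap p (bval (.or φ ψ) v) ↔ ∀ q, le q p → ∃ r, le r q ∧ (Ap r (bval φ v) ∨ Ap r (bval ψ v)) :=
  Ap_sup hr ht _ _ _

theorem Ap_all {φ : Fm} {v : ℕ → BSet (RO (Fsp le))} (p : P) :
    Ap p (bval (.all φ) v) ↔ ∀ z, Ap p (bval φ (scons z v)) := Ap_iInf hr ht _ _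

theorem Ap_ex {φ : Fm} {v : ℕ → BSet (RO (Fsp le))} (p : P) :
    Ap p (bval (.ex φ) v) ↔ ∀ q, le q p → ∃ r, le r q ∧ ∃ z, Ap r (bval φ (scons z v)) :=
  Ap_iSup hr ht _ _

theorem Ap_ex_of {φ : Fm} {v : ℕ → BSet (RO (Fsp le))} (p : P) (z : BSet (RO (Fsp le)))
    (h : Ap p (bval φ (scons z v))) : Ap p (bval (.ex φ) v) :=
  (Ap_ex hr ht p).2 fun q hq => ⟨q, hr q, z, Ap_down h hq⟩

omit hr ht in
/-- equal names satisfy the same formulas -/
theorem Ap_congr {φ : Fm} {v : ℕ → BSet (RO (Fsp le))} {p : P} {x y : BSet (RO (Fsp le))}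
    (h : Ap p (bEq x y)) : Ap p (bval φ (scons x v)) ↔ Ap p (bval φ (scons y v)) := by
  constructor
  · intro h1
    exact le_iff_Ap.1 (ext1_bval φ v x y) p ⟨h, h1⟩
  · intro h1
    refine le_iff_Ap.1 (ext1_bval φ v y x) p ⟨?_, h1⟩
    rw [bEq_symm]; exact h

end

end Pool.Agent.UlB
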