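import Pool.Agent.Lib.UlB.Zor
import Pool.Agent.Lib.UlB.Seg
import Pool.Agent.Lib.PolB.Lio
import Pool.Agent.Lib.BVM.ZFC3

/-!
# Ono: every ordinal of the Boolean-valued universe is, densely, a check ordinal

PROOF. `ord_chk`: let `a = v x`, `T = (Order.succ (Cardinal.mk (a.Idx × B))).ord.ToType`, `B = RO (Fsp le)`. It is a limit
(`fLim` and so `fOrd` of `chkAll B T` has value `⊤`: `bval_lim_all`; if `T` were finite, use instead `max (ℵ₀) ..`; take
`T = (Order.succ (max (ℵ₀) (mk (a.Idx × B)))).ord.ToType`). (1) The values `bEq (chkAll B T) a` and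
`bMem (chkAll B T) a`, met with the value of `fOrd` of `a`, are `⊥`: on each of them, by transitivity of `a`, for every `t : T`
`c ≤ bMem (chk t) a = ⨆ k, a.val k ⊓ bEq (chk t) (a.fn k)` (`c` the value); if `c ≠ ⊥` choose `k t` with
`d t = c ⊓ bEq (chk t) (a.fn (k t)) ≠ ⊥`; `t ↦ (k t, d t)` is injective (`k t = k s`, `d t = d s`, `t ≠ s` give
`d t ≤ bEq (chk t) (chk s) = ⊥`), against `#T > #(a.Idx × B)`. (2) By `ord_tri` in every quotient `U.Mod` (`U.isZFC`, `U.los`,
`le_of_forall_ult` of BVM/Pairs.lean, `ord_sub`) the value of `fOrd` of `a` is `≤ bMem a (chkAll B T) ⊔ (bEq ..⊔ ..)`, so by (1) it is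
`≤ bMem a (chkAll B T) = ⨆ t, bEq a (chk B t)` (`bMem_chkAll`). `Ap_iSup`.
-/

set_option autoImplicit false
universe u

namespace Pool.Agent.UlB

open Pool.Agent.Lib.BVM Pool.Agent.Lib.BVM.BSet Pool.Agent.PolB Pool.Agent.PolF

section
variable {B : Type u} [CompleteBooleanAlgebra B]

private theorem le_of_ult {x y : B} (h : ∀ U : Ult B, U.S x → U.S y) : x ≤ y := by
  by_contra hxy
  have hne : x ⊓ yᶜ ≠ ⊥ := by
    intro h'
    apply hxy
    rw [← sdiff_eq_bot_iff, sdiff_eq]
    exact h'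
  obtain ⟨U, hU⟩ := exists_ult hne
  rw [U.inf_iff, U.compl'] at hU
  exact hU.2 (h U hU.1)

/-- counting: a nonzero value cannot force `#T > #(a.Idx × B)` check names into `a` -/
private theorem cnt {a : BSet B} {T : Type u} [LinearOrder T] [WellFoundedLT T]
    (hT : Cardinal.mk (a.Idx × B) < Cardinal.mk T) (c : B)
    (h : ∀ t : T, c ≤ bMem (chk B t) a) : c = ⊥ := by
  by_contra hc
  have h1 : ∀ t : T, ∃ k : a.Idx, c ⊓ bEq (chk B t) (a.fn k) ≠ ⊥ := by
    intro t
    by_contra hn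
    push Not at hn
    apply hc
    rw [eq_bot_iff]
    calc c ≤ c ⊓ bMem (chk B t) a := le_inf le_rfl (h t)
      _ = ⨆ k, c ⊓ (a.val k ⊓ bEq (chk B t) (a.fn k)) := by rw [bMem_eq, inf_iSup_eq]
      _ ≤ ⊥ := iSup_le fun k => by
          rw [← hn k]
          exact le_inf inf_le_left (inf_le_right.trans inf_le_right)
  choose k hk using h1
  have hinj : Function.Injective (fun t => (k t, c ⊓ bEq (chk B t) (a.fn (k t)))) := by
    intro t s hts
    by_contra hne
    have e1 : k t = k s := congrArg Prod.fst hts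
    have e2 : c ⊓ bEq (chk B t) (a.fn (k t)) = c ⊓ bEq (chk B s) (a.fn (k s)) :=
      congrArg Prod.snd hts
    apply hk t
    rw [eq_bot_iff, ← chk_eq_of_ne hne]
    refine le_trans (le_inf inf_le_right ?_) (bEq_trans (chk B t) (a.fn (k t)) (chk B s))
    rw [e2, e1, bEq_symm (a.fn (k s))]
    exact inf_le_right
  exact absurd (Cardinal.mk_le_of_injective hinj) (not_le.2 hT)

private theorem ord_le {x : ℕ} {v : ℕ → BSet B} {T : Type u} [LinearOrder T] [WellFoundedLT T]
    (hT : Cardinal.mk ((v x).Idx × B) < Cardinal.mk T) (hn : Nonempty T)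
    (hm : ∀ a : T, ∃ b, a < b) :
    bval (fOrd x) v ≤ bMem (v x) (chkAll B T) := by
  have hc : bval (fOrd x) v ⊓ (bEq (chkAll B T) (v x) ⊔ bMem (chkAll B T) (v x)) = ⊥ := by
    refine cnt hT _ fun t => le_of_ult fun U hU => ?_
    rw [U.inf_iff, U.sup_iff] at hU
    have ho : IsOrd U.E (U.cls (v x)) := (U.los (fOrd x) v).2 hU.1
    have hs := ord_sub (b := U.cls (chkAll B T)) ho (by
      rcases hU.2 with h | h
      · exact Or.inl ((U.cls_eq_iff _ _).2 h)
      · exact Or.inr ((U.E_cls _ _).2 h))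
    refine (U.E_cls _ _).1 (hs (U.cls (chk B t)) ((U.E_cls _ _).2 ?_))
    rw [chk_mem_chkAll]
    exact U.top'
  refine le_of_ult fun U hU => ?_
  have ho : IsOrd U.E (U.cls (v x)) := (U.los (fOrd x) v).2 hU
  have hl : U.S (bval (fLim 0) (fun _ => chkAll B T)) := by
    rw [bval_lim_all (I := T) rfl hn hm]
    exact U.top'
  have hoT : IsOrd U.E (U.cls (chkAll B T)) :=
    ((U.los (fLim 0) (fun _ => chkAll B T)).2 hl : IsLim U.E (U.cls (chkAll B T))).1
  rcases ord_tri U.isZFC ho hoT with h | h | h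
  · exact (U.E_cls _ _).1 h
  · exfalso
    apply U.bot'
    rw [← hc, U.inf_iff, U.sup_iff]
    exact ⟨hU, Or.inl ((U.cls_eq_iff _ _).1 h.symm)⟩
  · exfalso
    apply U.bot'
    rw [← hc, U.inf_iff, U.sup_iff]
    exact ⟨hU, Or.inr ((U.E_cls _ _).1 h)⟩

end

variable {P : Type u} {le : P → P → Prop} (hr : ∀ p, le p p)
  (ht : ∀ p q r, le p q → le q r → le p r)
include hr ht

theorem ord_chk {x : ℕ} {v : ℕ → BSet (RO (Fsp le))} :
    ∃ (T : Type u) (_ : LinearOrder T) (_ : WellFoundedLT T), ∀ p, Ap p (bval (fOrd x) v) →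
      ∀ q, le q p → ∃ r, le r q ∧ ∃ t : T, Ap r (bEq (v x) (chk (RO (Fsp le)) t)) := by
  classical
  set c : Cardinal.{u} := Order.succ
    (max Cardinal.aleph0 (Cardinal.mk ((v x).Idx × RO (Fsp le)))) with hcdef
  have h0 : Cardinal.aleph0 ≤ c := (le_max_left _ _).trans (Order.le_succ _)
  have hT : Cardinal.mk ((v x).Idx × RO (Fsp le)) < Cardinal.mk c.ord.ToType := by
    rw [Cardinal.mk_ord_toType]
    exact (le_max_right _ _).trans_lt (Order.lt_succ _)
  have hno : NoMaxOrder c.ord.ToType := Cardinal.noMaxOrder h0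
  have hne : Nonempty c.ord.ToType := by
    rw [← Cardinal.mk_ne_zero_iff, Cardinal.mk_ord_toType]
    exact (Cardinal.aleph0_pos.trans_le h0).ne'
  refine ⟨c.ord.ToType, inferInstance, inferInstance, fun p hp => ?_⟩
  have h1 := le_iff_Ap.1 (ord_le (B := RO (Fsp le)) (x := x) (v := v) (T := c.ord.ToType) hT hne
    (fun a => exists_gt a)) p hp
  rw [bMem_chkAll] at h1
  exact (Ap_iSup hr ht _ _).1 h1

end Pool.Agent.UlB
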