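import Pool.Agent.Lib.UlB.Clb

/-!
# Sta: stationary sets

PROOF. `fStat S x = .all (.imp (fClub 0 (x + 1)) (bEx 0 (.mem 0 (S + 2))))`. `Ap_all`: let `C` be a name; `Ap_imp`: let `q ≤ p` with
`Ap q (bval (fClub 0 (x + 1)) (scons C v))`; `club_imp`: `FClub le (nmS C) X q`. The goal (`Ap_ex`;
`bEx 0 ψ = .ex (.and (.mem 0 1) ψ)`): for `q' ≤ q` (`FClub` and `Ap` pass to `q'`: apply `club_imp` at `q'` with `Ap_down`) `FStat`
gives `r ≤ q'` and `y` with `Mem (nmS C) y r`, `Mem Sn y r`; the witness is `chk y` (`mem_nmS`, `hS`).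
-/

set_option autoImplicit false
universe u

namespace Pool.Agent.UlB

open Pool.Agent.Lib.BVM Pool.Agent.Lib.BVM.BSet Pool.Agent.PolB Pool.Agent.PolF

variable {P : Type u} {le : P → P → Prop} (hr : ∀ p, le p p)
  (ht : ∀ p q r, le p q → le q r → le p r)
  {K : Type u} [LinearOrder K] [WellFoundedLT K]
include hr ht

theorem Ap_stat {S x : ℕ} {v : ℕ → BSet (RO (Fsp le))} {X : Set K}
    (hx : IsSeg (v x) X) (Sn : K → Set P)
    (hS : ∀ (a : K) (q : P), Ap q (bMem (chk (RO (Fsp le)) a) (v S)) ↔ Mem le Sn a q) (p : P)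
    (h : FStat le Sn X p) : Ap p (bval (fStat S x) v) := by
  unfold fStat
  refine (Ap_all hr ht p).2 fun C => (Ap_imp hr ht p).2 fun q hq hC => ?_
  refine (Ap_ex hr ht q).2 fun q' hq' => ?_
  have hx' : IsSeg ((scons C v) (x + 1)) X := hx
  have hcl : FClub le (nmS C) X q' :=
    club_imp hr ht (C := 0) (x := x + 1) (v := scons C v) hx' q' (Ap_down hC hq')
  obtain ⟨r, hr', y, hy, h1, h2⟩ := h (nmS C) q' (ht _ _ _ hq' hq) hcl
  exact ⟨r, hr', chk _ y, (mem_nmS hr ht C y r).1 h1, (hS y r).2 h2⟩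

end Pool.Agent.UlB
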