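import Pool.Agent.Lib.UlB.Mdl
import Pool.Agent.Lib.BVM.ZFCDef

/-!
# Zor: ordinals of a model of ZFC are comparable

PROOF. Let `(M, E)` be a model of ZFC, `a`, `b` ordinals. (1) no `x ∈ x`, no `x ∈ y ∈ x` (foundation for `{x}`,
`{x, y}`, pairing), no `x ∈ y ∈ z ∈ x` (if needed: foundation for a set containing the three; union and pairing). (2) if `c` is a
transitive subset of the ordinal `a`, `c ≠ a`, then `c ∈ a`: by separation (formula `.neg (.mem 0 1)`, with
`v = scons c _`) let `D = a \ c`, not empty (extensionality); by foundation let `d ∈ D` have no element of `D` in it.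
`d = c` by extensionality: if `z ∈ d` then `z ∈ a` (transitivity of `a`), `z ∉ D`, so `z ∈ c`; if `z ∈ c` then `z ∈ a`, and
`z ∈ d` or `z = d` or `d ∈ z`; `z = d` contradicts `d ∉ c`, `d ∈ z ∈ c` gives `d ∈ c` (`c` is transitive). So `c = d ∈ a`.
(3) `c = a ∩ b` (separation) is transitive and a subset of `a` and of `b`. If `c ≠ a` and `c ≠ b` then `c ∈ a` and `c ∈ b`,
so `c ∈ c`, a contradiction. If `c = a` then `a ⊆ b`; `a = b` or `a ∈ b` by (2); the same if `c = b`.
-/

set_option autoImplicit false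

namespace Pool.Agent.UlB

open Pool.Agent.Lib.BVM Pool.Agent.PolB

private theorem zor_irr {M : Type*} {E : M → M → Prop} (hZ : IsZFC E) (x : M) : ¬ E x x := by
  obtain ⟨p, hp⟩ := hZ.pairing x x
  obtain ⟨y, hy, hmin⟩ := hZ.foundation p ⟨x, (hp x).2 (Or.inl rfl)⟩
  have hyx : y = x := by
    rcases (hp y).1 hy with h | h
    · exact h
    · exact h
  subst hyx
  exact hmin y hy

/-- a transitive proper subset of an ordinal is an element -/
private theorem zor_mem {M : Type*} {E : M → M → Prop} (hZ : IsZFC E) {a c : M}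
    (ha : IsOrd E a) (hca : ∀ z, E z c → E z a) (hct : ∀ y, E y c → ∀ z, E z y → E z c)
    (hne : c ≠ a) : E c a := by
  obtain ⟨D, hD⟩ := hZ.separation (.neg (.mem 0 1)) (scons c fun _ => c) a
  have hD' : ∀ z, E z D ↔ E z a ∧ ¬ E z c := hD
  have hDne : ∃ y, E y D := by
    by_contra hcon
    push Not at hcon
    apply hne
    refine hZ.extensionality c a fun z => ⟨hca z, fun hz => ?_⟩
    by_contra hzc
    exact hcon z ((hD' z).2 ⟨hz, hzc⟩)
  obtain ⟨d, hd, hmin⟩ := hZ.foundation D hDne
  obtain ⟨hda, hdc⟩ := (hD' d).1 hd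
  have hcd : c = d := by
    refine hZ.extensionality c d fun z => ⟨fun hz => ?_, fun hz => ?_⟩
    · rcases ha.2 z (hca z hz) d hda with h | h | h
      · exact h
      · exact absurd (h ▸ hz) hdc
      · exact absurd (hct z hz d h) hdc
    · by_contra hzc
      exact hmin z ((hD' z).2 ⟨ha.1 d hda z hz, hzc⟩) hz
  rw [hcd]
  exact hda

theorem ord_tri {M : Type*} {E : M → M → Prop} (hZ : IsZFC E) {a b : M} (ha : IsOrd E a)
    (hb : IsOrd E b) : E a b ∨ (a = b ∨ E b a) := by
  obtain ⟨c, hc⟩ := hZ.separation (.mem 0 1) (scons b fun _ => b) a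
  have hc' : ∀ z, E z c ↔ E z a ∧ E z b := hc
  have hct : ∀ y, E y c → ∀ z, E z y → E z c := by
    intro y hy z hz
    obtain ⟨h1, h2⟩ := (hc' y).1 hy
    exact (hc' z).2 ⟨ha.1 y h1 z hz, hb.1 y h2 z hz⟩
  by_cases hca : c = a
  · subst hca
    by_cases hab : c = b
    · exact Or.inr (Or.inl hab)
    · exact Or.inl (zor_mem hZ hb (fun z hz => ((hc' z).1 hz).2) hct hab)
  · by_cases hcb : c = b
    · subst hcb
      exact Or.inr (Or.inr (zor_mem hZ ha (fun z hz => ((hc' z).1 hz).1) hct hca))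
    · have h1 := zor_mem hZ ha (fun z hz => ((hc' z).1 hz).1) hct hca
      have h2 := zor_mem hZ hb (fun z hz => ((hc' z).1 hz).2) hct hcb
      exact absurd ((hc' c).2 ⟨h1, h2⟩) (zor_irr hZ c)

/-- if `b ∈ a` or `b = a`, for ordinals, then every element of `b` is an element of `a` -/
theorem ord_sub {M : Type*} {E : M → M → Prop} {a b : M} (ha : IsOrd E a) (h : b = a ∨ E b a) :
    ∀ z, E z b → E z a := by
  intro z hz
  rcases h with h | h
  · rw [h] at hz
    exact hz
  · exact ha.1 b h z hz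

end Pool.Agent.UlB
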